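import Mathlib
import Pool.Agent.MP_221c76_co.Defs

section

open Finset
open scoped symmDiff

namespace Pool.Agent.MP_221c76_co

open Classical in
/-- multiplicity of `v` as an end -/
noncomputable def inc {V : Type*} (z : Sym2 V) (v : V) : ℕ :=
  Sym2.lift ⟨fun a b => (if a = v then 1 else 0) + (if b = v then 1 else 0),
    fun _ _ => add_comm _ _⟩ z

section inc
variable {V W : Type*}

open Classical in
lemma inc_mk (a b v : V) :
    inc s(a, b) v = (if a = v then 1 else 0) + (if b = v then 1 else 0) := rfl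

lemma inc_ne_zero_iff (z : Sym2 V) (v : V) : inc z v ≠ 0 ↔ v ∈ z := by
  induction z using Sym2.ind with
  | _ a b =>
    rw [inc_mk, Sym2.mem_iff]
    by_cases ha : a = v <;> by_cases hb : b = v <;> simp [ha, hb, @eq_comm _ v]

lemma inc_eq_zero_iff (z : Sym2 V) (v : V) : inc z v = 0 ↔ v ∉ z := by
  rw [← inc_ne_zero_iff]; simp

lemma inc_map {φ : V → W} (hφ : Function.Injective φ) (z : Sym2 V) (v : V) :
    inc (z.map φ) (φ v) = inc z v := by
  induction z using Sym2.ind with
  | _ a b =>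
    have h : ∀ x y, φ x = φ y ↔ x = y := fun x y => hφ.eq_iff
    rw [Sym2.map_mk, inc_mk, inc_mk]
    by_cases ha : a = v <;> by_cases hb : b = v <;> simp [ha, hb, h]

lemma inc_map_of_notMem {φ : V → W} (z : Sym2 V) {w : W} (hw : w ∉ Set.range φ) :
    inc (z.map φ) w = 0 := by
  rw [inc_eq_zero_iff, Sym2.mem_map]
  rintro ⟨a, -, rfl⟩
  exact hw ⟨a, rfl⟩

lemma sum_inc (z : Sym2 V) (S : Finset V) (hS : ∀ v ∈ z, v ∈ S) : ∑ v ∈ S, inc z v = 2 := by
  classical
  induction z using Sym2.ind with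
  | _ a b =>
    have ha : a ∈ S := hS a (by simp)
    have hb : b ∈ S := hS b (by simp)
    simp only [inc_mk, Finset.sum_add_distrib]
    rw [Finset.sum_ite_eq, Finset.sum_ite_eq]
    simp [ha, hb]

end inc

variable {V E : Type*} (ends : E → Sym2 V)

/-- degree of `v` in the finite edge set `X` -/
noncomputable def deg (X : Finset E) (v : V) : ℕ := ∑ e ∈ X, inc (ends e) v

/-- all degrees even -/
def IsEven (X : Finset E) : Prop := ∀ v, Even (deg ends X v)

open Classical in
/-- the number of even subsets -/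
noncomputable def nu (F : Finset E) : ℕ := (F.powerset.filter (IsEven ends)).card

/-- every edge lies in an even subset -/
def Bridgeless (F : Finset E) : Prop := ∀ e ∈ F, ∃ X ⊆ F, IsEven ends X ∧ e ∈ X

/-- no common vertex -/
def VDisj (F T : Finset E) : Prop := ∀ v, deg ends F v = 0 ∨ deg ends T v = 0

variable {ends}

lemma deg_eq_zero_iff {X : Finset E} {v : V} : deg ends X v = 0 ↔ ∀ e ∈ X, v ∉ ends e := by
  simp [deg, inc_eq_zero_iff]

lemma deg_ne_zero_iff {X : Finset E} {v : V} : deg ends X v ≠ 0 ↔ ∃ e ∈ X, v ∈ ends e := by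
  rw [Ne, deg_eq_zero_iff]; push Not; rfl

@[simp] lemma deg_empty (v : V) : deg ends ∅ v = 0 := by simp [deg]

@[simp] lemma deg_singleton (e : E) (v : V) : deg ends {e} v = inc (ends e) v := by simp [deg]

lemma deg_mono {X Y : Finset E} (h : X ⊆ Y) (v : V) : deg ends X v ≤ deg ends Y v :=
  Finset.sum_le_sum_of_subset h

lemma deg_union [DecidableEq E] {X Y : Finset E} (h : Disjoint X Y) (v : V) :
    deg ends (X ∪ Y) v = deg ends X v + deg ends Y v := Finset.sum_union h

lemma deg_inter_add_sdiff [DecidableEq E] (X Y : Finset E) (v : V) :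
    deg ends (X ∩ Y) v + deg ends (X \ Y) v = deg ends X v :=
  Finset.sum_inter_add_sum_sdiff X Y _

lemma isEven_empty : IsEven ends (∅ : Finset E) := fun v => by simp

lemma IsEven.symmDiff [DecidableEq E] {X Y : Finset E} (hX : IsEven ends X) (hY : IsEven ends Y) :
    IsEven ends (X ∆ Y) := by
  intro v
  have h1 := deg_inter_add_sdiff (ends := ends) X Y v
  have h2 := deg_inter_add_sdiff (ends := ends) Y X v
  have h3 : deg ends (X ∆ Y) v = deg ends (X \ Y) v + deg ends (Y \ X) v := by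
    rw [← deg_union disjoint_sdiff_sdiff]; rfl
  rw [Finset.inter_comm] at h2
  obtain ⟨a, ha⟩ := hX v
  obtain ⟨b, hb⟩ := hY v
  rw [Nat.even_iff]
  omega

lemma VDisj.symm {F T : Finset E} (h : VDisj ends F T) : VDisj ends T F := fun v => (h v).symm

lemma VDisj.mono {F T F' T' : Finset E} (h : VDisj ends F T) (hF : F' ⊆ F) (hT : T' ⊆ T) :
    VDisj ends F' T' := fun v => by
  have h1 := deg_mono (ends := ends) hF v
  have h2 := deg_mono (ends := ends) hT v
  rcases h v with h | h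
  · left; omega
  · right; omega

lemma vdisj_iff {F T : Finset E} :
    VDisj ends F T ↔ ∀ e ∈ F, ∀ f ∈ T, ∀ v, v ∈ ends e → v ∉ ends f := by
  constructor
  · intro h e he f hf v hv hv'
    rcases h v with h | h
    · exact deg_eq_zero_iff.1 h e he hv
    · exact deg_eq_zero_iff.1 h f hf hv'
  · intro h v
    by_contra hc
    push Not at hc
    obtain ⟨e, he, hv⟩ := deg_ne_zero_iff.1 hc.1
    obtain ⟨f, hf, hv'⟩ := deg_ne_zero_iff.1 hc.2
    exact h e he f hf v hv hv'

lemma exists_mem_ends (e : E) : ∃ v, v ∈ ends e := ⟨(ends e).out.1, Sym2.out_fst_mem _⟩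

lemma VDisj.disjoint {F T : Finset E} (h : VDisj ends F T) : Disjoint F T := by
  rw [Finset.disjoint_left]
  intro e he he'
  obtain ⟨v, hv⟩ := exists_mem_ends (ends := ends) e
  exact vdisj_iff.1 h e he e he' v hv hv

lemma VDisj.union_left [DecidableEq E] {F F' T : Finset E} (h : VDisj ends F T)
    (h' : VDisj ends F' T) : VDisj ends (F ∪ F') T := by
  rw [vdisj_iff] at *
  intro e he
  rcases Finset.mem_union.1 he with he | he
  · exact h e he
  · exact h' e he

/-- handshake: evenness at all vertices but one gives evenness everywhere -/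
lemma isEven_of_forall_ne {X : Finset E} (w : V) (h : ∀ v, v ≠ w → Even (deg ends X v)) :
    IsEven ends X := by
  classical
  suffices hw : Even (deg ends X w) by
    intro v
    by_cases hv : v = w
    · rw [hv]; exact hw
    · exact h v hv
  let S : Finset V := insert w (X.biUnion fun e => (ends e).toFinset)
  have hsum : ∑ v ∈ S, deg ends X v = 2 * X.card := by
    unfold deg
    rw [Finset.sum_comm]
    rw [Finset.sum_congr rfl (g := fun _ => 2)]
    · simp [mul_comm]
    · intro e he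
      apply sum_inc
      intro v hv
      exact Finset.mem_insert_of_mem (Finset.mem_biUnion.2 ⟨e, he, by simpa using hv⟩)
  have hw : w ∈ S := Finset.mem_insert_self _ _
  rw [← Finset.add_sum_erase S _ hw] at hsum
  have h2 : Even (∑ v ∈ S.erase w, deg ends X v) :=
    Finset.even_sum _ fun v hv => h v (Finset.ne_of_mem_erase hv)
  rw [Nat.even_iff] at h2 ⊢
  omega

/-- restriction of an even set to a union of components is even -/
lemma IsEven.filter {X : Finset E} (hX : IsEven ends X) (p : E → Prop) [DecidablePred p]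
    (hp : ∀ e ∈ X, ∀ f ∈ X, ∀ v, v ∈ ends e → v ∈ ends f → p e → p f) :
    IsEven ends (X.filter p) := by
  intro v
  by_cases h0 : deg ends (X.filter p) v = 0
  · rw [h0]; exact Even.zero
  · obtain ⟨e, he, hv⟩ := deg_ne_zero_iff.1 h0
    rw [Finset.mem_filter] at he
    have h1 : deg ends (X.filter fun e => ¬ p e) v = 0 := by
      rw [deg_eq_zero_iff]
      intro f hf hv'
      rw [Finset.mem_filter] at hf
      exact hf.2 (hp e he.1 f hf.1 v hv hv' he.2)
    have h2 : deg ends (X.filter p) v + deg ends (X.filter fun e => ¬ p e) v = deg ends X v :=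
      Finset.sum_filter_add_sum_filter_not X p _
    rw [h1, add_zero] at h2
    rw [h2]; exact hX v

lemma nu_pos (F : Finset E) : 0 < nu ends F := by
  classical
  unfold nu
  rw [Finset.card_pos]
  exact ⟨∅, by simp [isEven_empty]⟩

lemma nu_mono {F F' : Finset E} (h : F ⊆ F') : nu ends F ≤ nu ends F' := by
  classical
  unfold nu
  apply Finset.card_le_card
  intro X hX
  simp only [Finset.mem_filter, Finset.mem_powerset] at hX ⊢
  exact ⟨hX.1.trans h, hX.2⟩

lemma nu_empty : nu ends (∅ : Finset E) = 1 := by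
  classical
  unfold nu
  rw [Finset.powerset_empty, Finset.filter_singleton]
  simp [isEven_empty]

lemma nu_erase_of_mem [DecidableEq E] {F X : Finset E} {e : E} (hXF : X ⊆ F) (hX : IsEven ends X)
    (he : e ∈ X) : nu ends F = 2 * nu ends (F.erase e) := by
  classical
  unfold nu
  have h1 := Finset.card_filter_add_card_filter_not (s := F.powerset.filter (IsEven ends))
    (fun Y => e ∈ Y)
  have h2 : ((F.powerset.filter (IsEven ends)).filter (fun Y => ¬ e ∈ Y)) =
      (F.erase e).powerset.filter (IsEven ends) := by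
    ext Y
    simp only [Finset.mem_filter, Finset.mem_powerset, Finset.subset_erase]
    tauto
  have h3 : ((F.powerset.filter (IsEven ends)).filter (fun Y => e ∈ Y)).card =
      ((F.powerset.filter (IsEven ends)).filter (fun Y => ¬ e ∈ Y)).card := by
    apply Finset.card_nbij' (fun Y => Y ∆ X) (fun Y => Y ∆ X)
    · intro Y hY
      simp only [Finset.coe_filter, Finset.mem_filter, Finset.mem_powerset, Set.mem_ofPred_eq] at hY ⊢
      refine ⟨⟨?_, hY.1.2.symmDiff hX⟩, ?_⟩
      · intro a ha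
        rw [Finset.mem_symmDiff] at ha
        rcases ha with ha | ha
        · exact hY.1.1 ha.1
        · exact hXF ha.1
      · rw [Finset.mem_symmDiff]; tauto
    · intro Y hY
      simp only [Finset.coe_filter, Finset.mem_filter, Finset.mem_powerset, Set.mem_ofPred_eq] at hY ⊢
      refine ⟨⟨?_, hY.1.2.symmDiff hX⟩, ?_⟩
      · intro a ha
        rw [Finset.mem_symmDiff] at ha
        rcases ha with ha | ha
        · exact hY.1.1 ha.1
        · exact hXF ha.1
      · rw [Finset.mem_symmDiff]; tauto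
    · intro Y _
      simp
    · intro Y _
      simp
  rw [← h2]
  convert h1.symm using 1
  rw [h3]; ring

lemma nu_erase_of_not [DecidableEq E] {F : Finset E} {e : E}
    (h : ¬ ∃ X ⊆ F, IsEven ends X ∧ e ∈ X) : nu ends (F.erase e) = nu ends F := by
  classical
  unfold nu
  congr 1
  ext Y
  simp only [Finset.mem_filter, Finset.mem_powerset, Finset.subset_erase]
  constructor
  · tauto
  · rintro ⟨h1, h2⟩
    exact ⟨⟨h1, fun he => h ⟨Y, h1, h2, he⟩⟩, h2⟩

lemma nu_eq_pow (F : Finset E) : ∃ k, nu ends F = 2 ^ k := by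
  classical
  induction F using Finset.induction_on with
  | empty => exact ⟨0, nu_empty⟩
  | insert e F he ih =>
    obtain ⟨k, hk⟩ := ih
    have h0 : (insert e F).erase e = F := Finset.erase_insert he
    by_cases h : ∃ X ⊆ insert e F, IsEven ends X ∧ e ∈ X
    · obtain ⟨X, h1, h2, h3⟩ := h
      refine ⟨k + 1, ?_⟩
      rw [nu_erase_of_mem h1 h2 h3, h0, hk]; ring
    · refine ⟨k, ?_⟩
      rw [← nu_erase_of_not h, h0, hk]

lemma nu_union [DecidableEq E] {F T : Finset E} (h : VDisj ends F T) :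
    nu ends (F ∪ T) = nu ends F * nu ends T := by
  classical
  unfold nu
  rw [← Finset.card_product]
  have hd := h.disjoint
  rw [Finset.disjoint_left] at hd
  apply Finset.card_nbij' (fun X => (X.filter (· ∈ F), X.filter (· ∈ T))) (fun p => p.1 ∪ p.2)
  · intro X hX
    simp only [Finset.coe_filter, Finset.mem_powerset, Set.mem_ofPred_eq, Finset.coe_product,
      Set.mem_prod] at hX ⊢
    refine ⟨⟨fun a ha => (Finset.mem_filter.1 ha).2, ?_⟩, ⟨fun a ha => (Finset.mem_filter.1 ha).2, ?_⟩⟩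
    · apply hX.2.filter
      intro e he f hf v hv hv' heF
      rcases Finset.mem_union.1 (hX.1 hf) with h' | h'
      · exact h'
      · exact absurd hv' (vdisj_iff.1 h e heF f h' v hv)
    · apply hX.2.filter
      intro e he f hf v hv hv' heF
      rcases Finset.mem_union.1 (hX.1 hf) with h' | h'
      · exact absurd hv (vdisj_iff.1 h f h' e heF v hv')
      · exact h'
  · rintro ⟨X, Y⟩ hp
    simp only [Finset.coe_filter, Finset.mem_powerset, Set.mem_ofPred_eq, Finset.coe_product,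
      Set.mem_prod] at hp ⊢
    refine ⟨Finset.union_subset_union hp.1.1 hp.2.1, fun v => ?_⟩
    rw [deg_union (h.mono hp.1.1 hp.2.1).disjoint]
    exact (hp.1.2 v).add (hp.2.2 v)
  · intro X hX
    simp only [Finset.coe_filter, Finset.mem_powerset, Set.mem_ofPred_eq] at hX
    ext a
    simp only [Finset.mem_union, Finset.mem_filter]
    constructor
    · tauto
    · intro ha
      have := Finset.mem_union.1 (hX.1 ha)
      tauto
  · rintro ⟨X, Y⟩ hp
    simp only [Finset.coe_filter, Finset.mem_powerset, Set.mem_ofPred_eq, Finset.coe_product,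
      Set.mem_prod] at hp
    ext a
    · simp only [Finset.mem_union, Finset.mem_filter]
      constructor
      · rintro ⟨h1 | h1, h2⟩
        · exact h1
        · exact absurd (hp.2.1 h1) (hd h2)
      · intro h1
        exact ⟨Or.inl h1, hp.1.1 h1⟩
    · simp only [Finset.mem_union, Finset.mem_filter]
      constructor
      · rintro ⟨h1 | h1, h2⟩
        · exact absurd h2 (hd (hp.1.1 h1))
        · exact h1
      · intro h1
        exact ⟨Or.inr h1, hp.2.1 h1⟩

lemma Bridgeless.eq_of_subset {F F' : Finset E} (hF' : Bridgeless ends F') (h : F ⊆ F')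
    (hnu : nu ends F' ≤ nu ends F) : F = F' := by
  classical
  by_contra hne
  obtain ⟨e, he', he⟩ := Finset.exists_of_ssubset (Finset.ssubset_iff_subset_ne.2 ⟨h, hne⟩)
  obtain ⟨X, h1, h2, h3⟩ := hF' e he'
  have h4 := nu_erase_of_mem h1 h2 h3
  have h5 : nu ends F ≤ nu ends (F'.erase e) := nu_mono (Finset.subset_erase.2 ⟨h, he⟩)
  have h6 := nu_pos (ends := ends) F
  omega

lemma Bridgeless.union [DecidableEq E] {F T : Finset E} (hF : Bridgeless ends F)
    (hT : Bridgeless ends T) : Bridgeless ends (F ∪ T) := by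
  intro e he
  rcases Finset.mem_union.1 he with he | he
  · obtain ⟨X, h1, h2⟩ := hF e he
    exact ⟨X, h1.trans Finset.subset_union_left, h2⟩
  · obtain ⟨X, h1, h2⟩ := hT e he
    exact ⟨X, h1.trans Finset.subset_union_right, h2⟩

lemma exists_bridgeless_nu_eq (W : Finset E) (k : ℕ) (hk : 2 ^ k ≤ nu ends W) :
    ∃ H ⊆ W, Bridgeless ends H ∧ nu ends H = 2 ^ k := by
  classical
  induction W using Finset.strongInduction with
  | H W ih =>
    by_cases h : ∃ e ∈ W, 2 ^ k ≤ nu ends (W.erase e)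
    · obtain ⟨e, he, h⟩ := h
      obtain ⟨H, h1, h2⟩ := ih (W.erase e) (Finset.erase_ssubset he) h
      exact ⟨H, h1.trans (Finset.erase_subset _ _), h2⟩
    · push Not at h
      have hb : Bridgeless ends W := by
        intro e he
        by_contra hc
        have := nu_erase_of_not hc
        have := h e he
        omega
      refine ⟨W, subset_rfl, hb, ?_⟩
      rcases W.eq_empty_or_nonempty with rfl | ⟨e, he⟩
      · rw [nu_empty] at hk ⊢
        have : 0 < 2 ^ k := by positivity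
        omega
      · obtain ⟨X, h1, h2, h3⟩ := hb e he
        have h4 := nu_erase_of_mem h1 h2 h3
        have h5 := h e he
        obtain ⟨j, hj⟩ := nu_eq_pow (ends := ends) W
        rw [hj] at hk h4 ⊢
        have h6 : 2 ^ j < 2 ^ (k + 1) := by rw [pow_succ]; omega
        have h7 : j < k + 1 := (Nat.pow_lt_pow_iff_right (by norm_num)).1 h6
        have h8 : k ≤ j := (Nat.pow_le_pow_iff_right (by norm_num)).1 hk
        congr 1; omega

end Pool.Agent.MP_221c76_co

end

section

open Finset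
open scoped symmDiff

namespace Pool.Agent.MP_221c76_co

variable {V E : Type*} (ends : E → Sym2 V)

/-- necklace structure on a finite edge set `T` with set of beads `𝓑` -/
structure Neck (T : Finset E) (𝓑 : Set (Finset E)) : Prop where
  nonempty : 𝓑.Nonempty
  sub : ∀ B ∈ 𝓑, B ⊆ T
  cover : ∀ e ∈ T, ∃ B ∈ 𝓑, e ∈ B
  bead_even : ∀ B ∈ 𝓑, IsEven ends B
  bead_min : ∀ B ∈ 𝓑, ∀ X ⊆ B, IsEven ends X → X = ∅ ∨ X = B
  even : IsEven ends T
  deg_le : ∀ v, deg ends T v ≤ 4
  junction : ∀ B ∈ 𝓑, ∃ w₁ w₂, w₁ ≠ w₂ ∧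
    ∀ v, (deg ends B v ≠ 0 ∧ deg ends T v = 4) ↔ (v = w₁ ∨ v = w₂)
  conn : ∀ 𝓐 ⊆ 𝓑, 𝓐.Nonempty → (∀ B ∈ 𝓐, ∀ B' ∈ 𝓑, ∀ v, deg ends T v = 4 → deg ends B v ≠ 0 →
    deg ends B' v ≠ 0 → B' ∈ 𝓐) → 𝓑 ⊆ 𝓐

def IsNeck (T : Finset E) : Prop := ∃ 𝓑, Neck ends T 𝓑

variable {ends}

lemma deg_sdiff_eq_zero [DecidableEq E] {X Y : Finset E} (h : X ⊆ Y) {v : V}
    (hv : deg ends Y v ≤ deg ends X v) : deg ends (Y \ X) v = 0 := by
  have h1 := deg_inter_add_sdiff (ends := ends) Y X v
  rw [Finset.inter_eq_right.2 h] at h1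
  omega

lemma Neck.bead_nonempty {T : Finset E} {𝓑 : Set (Finset E)} (h : Neck ends T 𝓑) {B : Finset E}
    (hB : B ∈ 𝓑) : B.Nonempty := by
  obtain ⟨w₁, w₂, -, hw⟩ := h.junction B hB
  obtain ⟨e, he, -⟩ := deg_ne_zero_iff.1 ((hw w₁).2 (Or.inl rfl)).1
  exact ⟨e, he⟩

lemma IsNeck.nonempty {T : Finset E} (h : IsNeck ends T) : T.Nonempty := by
  obtain ⟨𝓑, h⟩ := h
  obtain ⟨B, hB⟩ := h.nonempty
  exact (h.bead_nonempty hB).mono (h.sub B hB)

lemma IsNeck.bridgeless {T : Finset E} (h : IsNeck ends T) : Bridgeless ends T := by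
  obtain ⟨𝓑, h⟩ := h
  exact fun e he => ⟨T, subset_rfl, h.even, he⟩

lemma IsNeck.deg_le {T : Finset E} (h : IsNeck ends T) (v : V) : deg ends T v ≤ 4 := by
  obtain ⟨𝓑, h⟩ := h
  exact h.deg_le v

lemma Neck.deg_le_two {T : Finset E} {𝓑 : Set (Finset E)} (h : Neck ends T 𝓑) {v : V}
    (hv : deg ends T v ≠ 4) : deg ends T v ≤ 2 := by
  have h1 := h.deg_le v
  obtain ⟨k, hk⟩ := h.even v
  omega

lemma two_le_deg {B : Finset E} (hB : IsEven ends B) {v : V} (hv : deg ends B v ≠ 0) :
    2 ≤ deg ends B v := by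
  obtain ⟨k, hk⟩ := hB v
  omega

/-- a necklace lies in one component -/
lemma IsNeck.connected {T : Finset E} (h : IsNeck ends T) (p : E → Prop)
    (hp : ∀ e ∈ T, ∀ f ∈ T, ∀ v, v ∈ ends e → v ∈ ends f → p e → p f)
    {e₀ : E} (he₀ : e₀ ∈ T) (hpe : p e₀) : ∀ e ∈ T, p e := by
  classical
  obtain ⟨𝓑, h⟩ := h
  have key : ∀ B ∈ 𝓑, ∀ e ∈ B, p e → ∀ f ∈ B, p f := by
    intro B hB e he hpe f hf
    have h1 : IsEven ends (B.filter p) := (h.bead_even B hB).filter p fun e he f hf =>
      hp e (h.sub B hB he) f (h.sub B hB hf)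
    rcases h.bead_min B hB _ (Finset.filter_subset _ _) h1 with h2 | h2
    · have : e ∈ B.filter p := Finset.mem_filter.2 ⟨he, hpe⟩
      rw [h2] at this
      simp at this
    · rw [← h2] at hf
      exact (Finset.mem_filter.1 hf).2
  have h2 := h.conn {B | B ∈ 𝓑 ∧ ∀ f ∈ B, p f} (fun B hB => hB.1) (by
    obtain ⟨B, hB, he⟩ := h.cover e₀ he₀
    exact ⟨B, hB, key B hB e₀ he hpe⟩) (by
    intro B hB B' hB' v _ h1 h2
    obtain ⟨e, he, hv⟩ := deg_ne_zero_iff.1 h1
    obtain ⟨f, hf, hv'⟩ := deg_ne_zero_iff.1 h2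
    exact ⟨hB', key B' hB' f hf (hp e (h.sub B hB.1 he) f (h.sub B' hB' hf) v hv hv' (hB.2 e he))⟩)
  intro e he
  obtain ⟨B, hB, he'⟩ := h.cover e he
  exact (h2 hB).2 e he'

lemma Neck.bead_subset {T T' : Finset E} {𝓑 𝓑' : Set (Finset E)} (h : Neck ends T 𝓑)
    (h' : Neck ends T' 𝓑') (hT : T' ⊆ T) {B : Finset E} (hB : B ∈ 𝓑) {w : V}
    (hw : deg ends B w ≠ 0) (hw' : deg ends T' w = 4) : B ⊆ T' := by
  classical
  have hw4 : deg ends T w = 4 := le_antisymm (h.deg_le w) (hw' ▸ deg_mono hT w)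
  obtain ⟨w₁, w₂, hne, hj⟩ := h.junction B hB
  -- the other junction
  obtain ⟨w', hw'j⟩ : ∃ w', ∀ v, deg ends B v ≠ 0 → deg ends T v = 4 → v = w ∨ v = w' := by
    rcases (hj w).1 ⟨hw, hw4⟩ with rfl | rfl
    · exact ⟨w₂, fun v h1 h2 => (hj v).1 ⟨h1, h2⟩⟩
    · exact ⟨w₁, fun v h1 h2 => ((hj v).1 ⟨h1, h2⟩).symm⟩
  have hBw : deg ends (B ∩ T') w = deg ends B w := by
    have h1 : deg ends (T \ T') w = 0 := deg_sdiff_eq_zero hT (by omega)
    have h2 : deg ends (B \ T') w ≤ deg ends (T \ T') w :=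
      deg_mono (Finset.sdiff_subset_sdiff (h.sub B hB) subset_rfl) w
    have h3 := deg_inter_add_sdiff (ends := ends) B T' w
    omega
  have hev : IsEven ends (B ∩ T') := by
    apply isEven_of_forall_ne w'
    intro u hu
    by_cases huw : u = w
    · rw [huw, hBw]; exact h.bead_even B hB w
    by_cases hu0 : deg ends B u = 0
    · have := deg_mono (ends := ends) (Finset.inter_subset_left (s₁ := B) (s₂ := T')) u
      have h0 : deg ends (B ∩ T') u = 0 := by omega
      rw [h0]; exact Even.zero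
    have hu4 : deg ends T u ≠ 4 := fun h4 => by
      rcases hw'j u hu0 h4 with h5 | h5
      · exact huw h5
      · exact hu h5
    have h1 := h.deg_le_two hu4
    have h2 := two_le_deg (h.bead_even B hB) hu0
    have h3 : deg ends (T \ B) u = 0 := deg_sdiff_eq_zero (h.sub B hB) (by omega)
    have h4 : deg ends (T' \ B) u ≤ deg ends (T \ B) u :=
      deg_mono (Finset.sdiff_subset_sdiff hT subset_rfl) u
    have h5 := deg_inter_add_sdiff (ends := ends) T' B u
    rw [Finset.inter_comm] at h5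
    have h6 : deg ends (B ∩ T') u = deg ends T' u := by omega
    rw [h6]; exact h'.even u
  rcases h.bead_min B hB _ Finset.inter_subset_left hev with h1 | h1
  · rw [h1] at hBw
    simp only [deg_empty] at hBw
    exact absurd hBw.symm hw
  · exact Finset.inter_eq_left.1 h1

lemma Neck.junction_of_subset {T T' : Finset E} {𝓑 𝓑' : Set (Finset E)} (h : Neck ends T 𝓑)
    (h' : Neck ends T' 𝓑') (hT : T' ⊆ T) {B : Finset E} (hB : B ∈ 𝓑) {w : V}
    (hw : deg ends B w ≠ 0) (hw' : deg ends T' w = 4) {v : V} (hv : deg ends B v ≠ 0)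
    (hv4 : deg ends T v = 4) : deg ends T' v = 4 := by
  classical
  by_contra hv'
  have hBT' := h.bead_subset h' hT hB hw hw'
  have h44 : ∀ u, deg ends T' u = 4 → deg ends T u = 4 := fun u hu =>
    le_antisymm (h.deg_le u) (hu ▸ deg_mono hT u)
  obtain ⟨w₁, w₂, hne, hj⟩ := h.junction B hB
  have hvw : v ≠ w := fun h => hv' (h ▸ hw')
  -- `w` is the only junction of `T'` on `B`
  have honly : ∀ u, deg ends B u ≠ 0 → deg ends T' u = 4 → u = w := by
    intro u hu hu4
    have h1 := (hj u).1 ⟨hu, h44 u hu4⟩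
    have h2 := (hj v).1 ⟨hv, hv4⟩
    have h3 := (hj w).1 ⟨hw, h44 w hw'⟩
    have h4 : u ≠ v := fun h => hv' (h ▸ hu4)
    rcases h1 with h1 | h1 <;> rcases h2 with h2 | h2 <;> rcases h3 with h3 | h3 <;>
      first
        | exact h1.trans h3.symm
        | exact absurd (h1.trans h2.symm) h4
        | exact absurd (h2.trans h3.symm) hvw
  obtain ⟨e, he⟩ := h.bead_nonempty hB
  obtain ⟨B', hB', he'⟩ := h'.cover e (hBT' he)
  have hev : IsEven ends (B ∩ B') := by
    apply isEven_of_forall_ne w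
    intro u hu
    by_cases hu0 : deg ends (B ∩ B') u = 0
    · rw [hu0]; exact Even.zero
    have h1 := deg_mono (ends := ends) (Finset.inter_subset_left (s₁ := B) (s₂ := B')) u
    have h2 := deg_mono (ends := ends) (Finset.inter_subset_right (s₁ := B) (s₂ := B')) u
    have hu4 : deg ends T' u ≠ 4 := fun h4 => hu (honly u (by omega) h4)
    have h3 := h'.deg_le_two hu4
    have h4 := two_le_deg (h'.bead_even B' hB') (v := u) (by omega)
    have h5 : deg ends (T' \ B') u = 0 := deg_sdiff_eq_zero (h'.sub B' hB') (by omega)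
    have h6 : deg ends (B \ B') u ≤ deg ends (T' \ B') u :=
      deg_mono (Finset.sdiff_subset_sdiff hBT' subset_rfl) u
    have h7 := deg_inter_add_sdiff (ends := ends) B B' u
    have h8 : deg ends (B ∩ B') u = deg ends B u := by omega
    rw [h8]; exact h.bead_even B hB u
  have hne' : B ∩ B' ≠ ∅ := Finset.ne_empty_of_mem (Finset.mem_inter.2 ⟨he, he'⟩)
  have h1 : B ∩ B' = B := (h.bead_min B hB _ Finset.inter_subset_left hev).resolve_left hne'
  have h2 : B ∩ B' = B' := (h'.bead_min B' hB' _ Finset.inter_subset_right hev).resolve_left hne'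
  have h3 : B' = B := h2.symm.trans h1
  obtain ⟨u₁, u₂, hne2, hj'⟩ := h'.junction B' hB'
  have h4 := (hj' u₁).2 (Or.inl rfl)
  have h5 := (hj' u₂).2 (Or.inr rfl)
  rw [h3] at h4 h5
  exact hne2 ((honly u₁ h4.1 h4.2).trans (honly u₂ h5.1 h5.2).symm)

/-- necklaces form an antichain -/
lemma IsNeck.eq_of_subset {T T' : Finset E} (h : IsNeck ends T) (h' : IsNeck ends T')
    (hT : T' ⊆ T) : T' = T := by
  obtain ⟨𝓑, h⟩ := h
  obtain ⟨𝓑', h'⟩ := h'
  have h2 := h.conn {B | B ∈ 𝓑 ∧ ∃ w, deg ends B w ≠ 0 ∧ deg ends T' w = 4} (fun B hB => hB.1) (by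
    obtain ⟨B', hB'⟩ := h'.nonempty
    obtain ⟨w₁, w₂, -, hj⟩ := h'.junction B' hB'
    have h1 := (hj w₁).2 (Or.inl rfl)
    obtain ⟨e, he, hv⟩ := deg_ne_zero_iff.1 h1.1
    obtain ⟨B, hB, heB⟩ := h.cover e (hT (h'.sub B' hB' he))
    exact ⟨B, hB, w₁, deg_ne_zero_iff.2 ⟨e, heB, hv⟩, h1.2⟩) (by
    rintro B ⟨hB, w, hw, hw'⟩ B' hB' v hv4 h1 h2
    exact ⟨hB', v, h2, h.junction_of_subset h' hT hB hw hw' h1 hv4⟩)
  apply Finset.Subset.antisymm hT
  intro e he
  obtain ⟨B, hB, he'⟩ := h.cover e he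
  obtain ⟨-, w, hw, hw'⟩ := h2 hB
  exact h.bead_subset h' hT hB hw hw' he'

variable (ends) in
/-- the data exhibiting an edge set as a member of the family -/
structure GoodData (σ : ℕ → ℕ) (C : Set E) (N : ℕ) (F : Finset E) (T : ℕ → Finset E) : Prop where
  bridgeless : Bridgeless ends F
  nu_eq : nu ends F = ∏ n ∈ range N, σ n
  neck : ∀ n, N ≤ n → IsNeck ends (T n)
  nu_neck : ∀ n, N ≤ n → nu ends (T n) = σ n
  disj : ∀ n, N ≤ n → VDisj ends F (T n)
  disj' : ∀ m n, N ≤ m → N ≤ n → m ≠ n → VDisj ends (T m) (T n)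
  mem : ∀ e, e ∈ C ↔ e ∈ F ∨ ∃ n, N ≤ n ∧ e ∈ T n

variable (ends) in
def Good (σ : ℕ → ℕ) (C : Set E) : Prop := ∃ N F T, GoodData ends σ C N F T

variable {σ : ℕ → ℕ}

lemma GoodData.absorb_one [DecidableEq E] {C : Set E} {N : ℕ} {F : Finset E} {T : ℕ → Finset E}
    (h : GoodData ends σ C N F T) : GoodData ends σ C (N + 1) (F ∪ T N) T where
  bridgeless := h.bridgeless.union (h.neck N le_rfl).bridgeless
  nu_eq := by rw [nu_union (h.disj N le_rfl), h.nu_eq, h.nu_neck N le_rfl, Finset.prod_range_succ]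
  neck n hn := h.neck n (by omega)
  nu_neck n hn := h.nu_neck n (by omega)
  disj n hn := (h.disj n (by omega)).union_left (h.disj' N n le_rfl (by omega) (by omega))
  disj' m n hm hn hmn := h.disj' m n (by omega) (by omega) hmn
  mem e := by
    rw [h.mem, Finset.mem_union]
    constructor
    · rintro (h1 | ⟨n, hn, h1⟩)
      · exact Or.inl (Or.inl h1)
      · rcases hn.eq_or_lt with rfl | hn
        · exact Or.inl (Or.inr h1)
        · exact Or.inr ⟨n, hn, h1⟩
    · rintro ((h1 | h1) | ⟨n, hn, h1⟩)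
      · exact Or.inl h1
      · exact Or.inr ⟨N, le_rfl, h1⟩
      · exact Or.inr ⟨n, by omega, h1⟩

lemma GoodData.absorb {C : Set E} {N : ℕ} {F : Finset E} {T : ℕ → Finset E}
    (h : GoodData ends σ C N F T) {M : ℕ} (hM : N ≤ M) : ∃ F', GoodData ends σ C M F' T := by
  classical
  induction M, hM using Nat.le_induction with
  | base => exact ⟨F, h⟩
  | succ M _ ih =>
    obtain ⟨F', h'⟩ := ih
    exact ⟨_, h'.absorb_one⟩

lemma Good.exists_even {C : Set E} (h : Good ends σ C) {e : E} (he : e ∈ C) :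
    ∃ X : Finset E, (∀ f ∈ X, f ∈ C) ∧ IsEven ends X ∧ e ∈ X := by
  obtain ⟨N, F, T, h⟩ := h
  rcases (h.mem e).1 he with h1 | ⟨n, hn, h1⟩
  · obtain ⟨X, h2, h3, h4⟩ := h.bridgeless e h1
    exact ⟨X, fun f hf => (h.mem f).2 (Or.inl (h2 hf)), h3, h4⟩
  · obtain ⟨X, h2, h3, h4⟩ := (h.neck n hn).bridgeless e h1
    exact ⟨X, fun f hf => (h.mem f).2 (Or.inr ⟨n, hn, h2 hf⟩), h3, h4⟩

lemma eventually_gt_of_injective (hσ : Function.Injective σ) (k : ℕ) :
    ∃ M, ∀ n, M ≤ n → k < σ n := by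
  have h1 : (σ ⁻¹' (Set.Iic k)).Finite := (Set.finite_Iic k).preimage hσ.injOn
  obtain ⟨M, hM⟩ := h1.bddAbove
  refine ⟨M + 1, fun n hn => ?_⟩
  by_contra hc
  have : n ≤ M := hM (show σ n ∈ Set.Iic k from not_lt.1 hc)
  omega

/-- (C1) -/
lemma Good.eq_of_subset (hσ : Function.Injective σ) {C C' : Set E} (h : Good ends σ C)
    (h' : Good ends σ C') (hC : C' ⊆ C) : C' = C := by
  obtain ⟨N, F, T, h⟩ := h
  obtain ⟨N', F', T', h'⟩ := h'
  obtain ⟨M₀, hM₀⟩ := eventually_gt_of_injective hσ (nu ends F)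
  obtain ⟨M, hMN, hMN', hM⟩ : ∃ M, N ≤ M ∧ N' ≤ M ∧ M₀ ≤ M :=
    ⟨N + N' + M₀, by omega, by omega, by omega⟩
  obtain ⟨F₁, h₁⟩ := h.absorb hMN
  obtain ⟨F₁', h₁'⟩ := h'.absorb hMN'
  have hT : ∀ n, M ≤ n → T' n = T n := by
    intro n hn
    have hn' := h₁'.neck n hn
    have hsub : ∀ e ∈ T' n, e ∈ F ∨ ∃ m, N ≤ m ∧ e ∈ T m := fun e he =>
      (h.mem e).1 (hC ((h₁'.mem e).2 (Or.inr ⟨n, hn, he⟩)))
    obtain ⟨e₀, he₀⟩ := hn'.nonempty
    rcases hsub e₀ he₀ with h1 | ⟨m, hm, h1⟩
    · have h2 : T' n ⊆ F := hn'.connected (· ∈ F) (by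
        intro e he f hf v hv hv' heF
        rcases hsub f hf with h3 | ⟨m, hm, h3⟩
        · exact h3
        · exact absurd hv' (vdisj_iff.1 (h.disj m hm) e heF f h3 v hv)) he₀ h1
      have h3 := nu_mono (ends := ends) h2
      rw [h₁'.nu_neck n hn] at h3
      have := hM₀ n (by omega)
      omega
    · have h2 : T' n ⊆ T m := hn'.connected (· ∈ T m) (by
        intro e he f hf v hv hv' heF
        rcases hsub f hf with h3 | ⟨m', hm', h3⟩
        · exact absurd hv (vdisj_iff.1 (h.disj m hm) f h3 e heF v hv')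
        · by_cases hmm : m = m'
          · rw [hmm]; exact h3
          · exact absurd hv' (vdisj_iff.1 (h.disj' m m' hm hm' hmm) e heF f h3 v hv)) he₀ h1
      have h3 := (h.neck m hm).eq_of_subset hn' h2
      have h4 : σ n = σ m := by rw [← h₁'.nu_neck n hn, ← h.nu_neck m hm, h3]
      rw [h3, hσ h4]
  have hF : F₁' ⊆ F₁ := by
    intro e he
    rcases (h₁.mem e).1 (hC ((h₁'.mem e).2 (Or.inl he))) with h1 | ⟨n, hn, h1⟩
    · exact h1
    · rw [← hT n hn] at h1
      exact absurd h1 (Finset.disjoint_left.1 (h₁'.disj n hn).disjoint he)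
  have hF' : F₁' = F₁ := h₁.bridgeless.eq_of_subset hF (by rw [h₁.nu_eq, h₁'.nu_eq])
  ext e
  rw [h₁.mem, h₁'.mem, hF']
  apply or_congr_right
  apply exists_congr
  intro n
  apply and_congr_right
  intro hn
  rw [hT n hn]

lemma GoodData.eventually_vdisj {C : Set E} {N : ℕ} {F : Finset E} {T : ℕ → Finset E}
    (h : GoodData ends σ C N F T) (Z : Finset E) : ∃ M, N ≤ M ∧ ∀ n, M ≤ n → VDisj ends Z (T n) := by
  classical
  have h1 : ∀ v : V, ∃ M, ∀ n, M ≤ n → N ≤ n → deg ends (T n) v = 0 := by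
    intro v
    by_cases hv : ∃ n, N ≤ n ∧ deg ends (T n) v ≠ 0
    · obtain ⟨m, hm, hv⟩ := hv
      refine ⟨m + 1, fun n hn hN => ?_⟩
      exact (h.disj' m n hm hN (by omega) v).resolve_left hv
    · push Not at hv
      exact ⟨0, fun n _ hN => hv n hN⟩
  choose g hg using h1
  let S : Finset V := Z.biUnion fun e => (ends e).toFinset
  refine ⟨N + S.sup g, by omega, fun n hn v => ?_⟩
  by_cases hv : v ∈ S
  · right
    have : g v ≤ S.sup g := Finset.le_sup hv
    exact hg v n (by omega) (by omega)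
  · left
    rw [deg_eq_zero_iff]
    intro e he hv'
    exact hv (Finset.mem_biUnion.2 ⟨e, he, by simpa using hv'⟩)

/-- (C2) -/
lemma Good.elim (hσ : Function.Injective σ) {C₁ C₂ : Set E} (h₁ : Good ends σ C₁)
    (h₂ : Good ends σ C₂) (hne : C₁ ≠ C₂) {e : E} (he₁ : e ∈ C₁) :
    ∃ C, Good ends σ C ∧ C ⊆ (C₁ ∪ C₂) \ {e} := by
  classical
  obtain ⟨f, hf₂, hf₁⟩ : ∃ f, f ∈ C₂ ∧ f ∉ C₁ := by
    by_contra hc
    push Not at hc
    exact hne (h₁.eq_of_subset hσ h₂ hc).symm
  obtain ⟨Z, hZ, hZe, hfZ, heZ⟩ : ∃ Z : Finset E, (∀ g ∈ Z, g ∈ C₁ ∪ C₂) ∧ IsEven ends Z ∧ f ∈ Z ∧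
      e ∉ Z := by
    obtain ⟨Z₂, h1, h2, h3⟩ := h₂.exists_even hf₂
    by_cases he : e ∈ Z₂
    · obtain ⟨Z₁, h4, h5, h6⟩ := h₁.exists_even he₁
      refine ⟨Z₁ ∆ Z₂, ?_, h5.symmDiff h2, ?_, ?_⟩
      · intro g hg
        rw [Finset.mem_symmDiff] at hg
        rcases hg with hg | hg
        · exact Or.inl (h4 g hg.1)
        · exact Or.inr (h1 g hg.1)
      · rw [Finset.mem_symmDiff]
        exact Or.inr ⟨h3, fun h => hf₁ (h4 f h)⟩
      · rw [Finset.mem_symmDiff]; tauto
    · exact ⟨Z₂, fun g hg => Or.inr (h1 g hg), h2, h3, he⟩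
  obtain ⟨N, F, T, h⟩ := h₁
  obtain ⟨M, hM, hZM⟩ := h.eventually_vdisj (insert e Z)
  obtain ⟨F₁, h'⟩ := h.absorb hM
  have heT : ∀ n, M ≤ n → e ∉ T n := fun n hn =>
    Finset.disjoint_left.1 (hZM n hn).disjoint (Finset.mem_insert_self _ _)
  have heF : e ∈ F₁ := by
    rcases (h'.mem e).1 he₁ with h1 | ⟨n, hn, h1⟩
    · exact h1
    · exact absurd h1 (heT n hn)
  obtain ⟨k, hk⟩ := nu_eq_pow (ends := ends) F₁
  have hW : 2 ^ k ≤ nu ends (F₁.erase e ∪ Z) := by
    obtain ⟨X, h1, h2, h3⟩ := h'.bridgeless e heF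
    rw [← hk, nu_erase_of_mem h1 h2 h3, nu_erase_of_mem Finset.subset_union_right hZe hfZ]
    apply Nat.mul_le_mul_left
    apply nu_mono
    rw [Finset.subset_erase]
    refine ⟨Finset.subset_union_left, fun hf => hf₁ ?_⟩
    exact (h'.mem f).2 (Or.inl (Finset.mem_of_mem_erase hf))
  obtain ⟨H, hH, hHb, hHn⟩ := exists_bridgeless_nu_eq _ k hW
  refine ⟨{g | g ∈ H ∨ ∃ n, M ≤ n ∧ g ∈ T n}, ⟨M, H, T, hHb, ?_, h'.neck, h'.nu_neck, ?_, h'.disj',
    fun g => Iff.rfl⟩, ?_⟩
  · rw [hHn, ← hk, h'.nu_eq]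
  · intro n hn
    refine VDisj.mono (VDisj.union_left ((h'.disj n hn).mono (Finset.erase_subset _ _) subset_rfl)
      ((hZM n hn).mono (Finset.subset_insert _ _) subset_rfl)) hH subset_rfl
  · rintro g (hg | ⟨n, hn, hg⟩)
    · rcases Finset.mem_union.1 (hH hg) with h1 | h1
      · exact ⟨Or.inl ((h'.mem g).2 (Or.inl (Finset.mem_of_mem_erase h1))),
          Finset.ne_of_mem_erase h1⟩
      · exact ⟨hZ g h1, fun h2 => heZ (by rw [Set.mem_singleton_iff] at h2; exact h2 ▸ h1)⟩
    · exact ⟨Or.inl ((h'.mem g).2 (Or.inr ⟨n, hn, hg⟩)),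
        fun h2 => heT n hn (by rw [Set.mem_singleton_iff] at h2; exact h2 ▸ hg)⟩

end Pool.Agent.MP_221c76_co

end

section

open Finset

namespace Pool.Agent.MP_221c76_co

variable {V E V' E' : Type*}

/-- abstract topological embedding of `(V, E, ends)` into `(V', E', ends')` -/
structure Transfer (ends : E → Sym2 V) (ends' : E' → Sym2 V') where
  fib : E → Finset E'
  ι : V → V'
  inj : Function.Injective ι
  fib_nonempty : ∀ a, (fib a).Nonempty
  fib_disj : ∀ a b, a ≠ b → Disjoint (fib a) (fib b)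
  deg_old : ∀ a v, deg ends' (fib a) (ι v) = inc (ends a) v
  deg_new : ∀ w, w ∉ Set.range ι → (∀ a, deg ends' (fib a) w = 0) ∨
    ∃ a, deg ends' (fib a) w = 2 ∧ ∀ b, b ≠ a → deg ends' (fib b) w = 0
  sat : ∀ a, ∀ X ⊆ fib a, (∀ w, w ∉ Set.range ι → Even (deg ends' X w)) → X = ∅ ∨ X = fib a

namespace Transfer

variable {ends : E → Sym2 V} {ends' : E' → Sym2 V'} (t : Transfer ends ends')

/-- lift of a finite edge set -/
noncomputable def lift (X : Finset E) : Finset E' :=
  X.disjiUnion t.fib fun a _ b _ hab => t.fib_disj a b hab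

/-- lift of an edge set -/
def liftSet (D : Set E) : Set E' := {e | ∃ a ∈ D, e ∈ t.fib a}

lemma mem_lift {X : Finset E} {e : E'} : e ∈ t.lift X ↔ ∃ a ∈ X, e ∈ t.fib a := by
  simp [lift]

lemma fib_unique {a b : E} {e : E'} (ha : e ∈ t.fib a) (hb : e ∈ t.fib b) : a = b := by
  by_contra h
  exact Finset.disjoint_left.1 (t.fib_disj a b h) ha hb

lemma mem_lift_of_mem_fib {X : Finset E} {a : E} {e : E'} (he : e ∈ t.fib a) :
    e ∈ t.lift X ↔ a ∈ X := by
  rw [mem_lift]
  constructor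
  · rintro ⟨b, hb, hb'⟩
    rwa [t.fib_unique he hb']
  · exact fun h => ⟨a, h, he⟩

lemma mem_liftSet_of_mem_fib {D : Set E} {a : E} {e : E'} (he : e ∈ t.fib a) :
    e ∈ t.liftSet D ↔ a ∈ D := by
  constructor
  · rintro ⟨b, hb, hb'⟩
    rwa [t.fib_unique he hb']
  · exact fun h => ⟨a, h, he⟩

lemma lift_subset_lift {X Y : Finset E} : t.lift X ⊆ t.lift Y ↔ X ⊆ Y := by
  constructor
  · intro h a ha
    obtain ⟨e, he⟩ := t.fib_nonempty a
    exact (t.mem_lift_of_mem_fib he).1 (h ((t.mem_lift_of_mem_fib he).2 ha))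
  · intro h e he
    rw [mem_lift] at he ⊢
    obtain ⟨a, ha, he⟩ := he
    exact ⟨a, h ha, he⟩

lemma lift_injective : Function.Injective t.lift := fun _ _ h =>
  Finset.Subset.antisymm (t.lift_subset_lift.1 h.subset) (t.lift_subset_lift.1 h.symm.subset)

@[simp] lemma lift_empty : t.lift ∅ = ∅ := by
  ext e; simp [mem_lift]

lemma deg_lift (X : Finset E) (w : V') :
    deg ends' (t.lift X) w = ∑ a ∈ X, deg ends' (t.fib a) w := by
  unfold lift deg
  rw [Finset.sum_disjiUnion]

lemma deg_lift_old (X : Finset E) (v : V) : deg ends' (t.lift X) (t.ι v) = deg ends X v := by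
  rw [deg_lift]
  simp only [t.deg_old]
  rfl

lemma deg_lift_new {w : V'} (hw : w ∉ Set.range t.ι) :
    (∀ X, deg ends' (t.lift X) w = 0) ∨
      ∃ a, ∀ X, (a ∈ X → deg ends' (t.lift X) w = 2) ∧ (a ∉ X → deg ends' (t.lift X) w = 0) := by
  rcases t.deg_new w hw with h | ⟨a, ha, h⟩
  · left
    intro X
    rw [deg_lift]
    exact Finset.sum_eq_zero fun a _ => h a
  · right
    refine ⟨a, fun X => ⟨fun hX => ?_, fun hX => ?_⟩⟩
    · rw [deg_lift, Finset.sum_eq_single_of_mem a hX fun b _ hb => h b hb, ha]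
    · rw [deg_lift]
      exact Finset.sum_eq_zero fun b hb => h b (fun hba => hX (hba ▸ hb))

lemma deg_lift_new' {w : V'} (hw : w ∉ Set.range t.ι) (X : Finset E) :
    deg ends' (t.lift X) w = 0 ∨ deg ends' (t.lift X) w = 2 := by
  rcases t.deg_lift_new hw with h | ⟨a, h⟩
  · exact Or.inl (h X)
  · by_cases ha : a ∈ X
    · exact Or.inr ((h X).1 ha)
    · exact Or.inl ((h X).2 ha)

lemma isEven_lift {X : Finset E} : IsEven ends' (t.lift X) ↔ IsEven ends X := by
  constructor
  · intro h v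
    rw [← t.deg_lift_old]; exact h _
  · intro h w
    by_cases hw : w ∈ Set.range t.ι
    · obtain ⟨v, rfl⟩ := hw
      rw [t.deg_lift_old]; exact h v
    · rcases t.deg_lift_new' hw X with h1 | h1 <;> rw [h1] <;> decide

/-- even sets inside the image are saturated -/
lemma fib_subset_of_even {Y : Finset E'} (hY : IsEven ends' Y) (hcov : ∀ e ∈ Y, ∃ a, e ∈ t.fib a)
    {a : E} {e : E'} (he : e ∈ t.fib a) (heY : e ∈ Y) : t.fib a ⊆ Y := by
  classical
  have h1 := t.sat a (Y ∩ t.fib a) Finset.inter_subset_right (by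
    intro w hw
    rcases t.deg_new w hw with h | ⟨b, hb, h⟩
    · have := deg_mono (ends := ends') (Finset.inter_subset_right (s₁ := Y) (s₂ := t.fib a)) w
      have h0 : deg ends' (Y ∩ t.fib a) w = 0 := by rw [h a] at this; omega
      rw [h0]; exact Even.zero
    · by_cases hab : a = b
      · subst hab
        have h2 := deg_inter_add_sdiff (ends := ends') Y (t.fib a) w
        have h3 : deg ends' (Y \ t.fib a) w = 0 := by
          rw [deg_eq_zero_iff]
          intro f hf
          rw [Finset.mem_sdiff] at hf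
          obtain ⟨c, hc⟩ := hcov f hf.1
          exact deg_eq_zero_iff.1 (h c (fun hca => hf.2 (hca ▸ hc))) f hc
        rw [h3, add_zero] at h2
        rw [h2]; exact hY w
      · have := deg_mono (ends := ends') (Finset.inter_subset_right (s₁ := Y) (s₂ := t.fib a)) w
        have h0 : deg ends' (Y ∩ t.fib a) w = 0 := by rw [h a hab] at this; omega
        rw [h0]; exact Even.zero)
  rcases h1 with h1 | h1
  · exact absurd h1 (Finset.ne_empty_of_mem (Finset.mem_inter.2 ⟨heY, he⟩))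
  · exact Finset.inter_eq_right.1 h1

lemma exists_lift_eq {Y : Finset E'} (hY : Bridgeless ends' Y) (hcov : ∀ e ∈ Y, ∃ a, e ∈ t.fib a) :
    ∃ X, t.lift X = Y := by
  classical
  choose g hg using hcov
  refine ⟨Y.attach.image fun e => g e.1 e.2, ?_⟩
  ext e
  rw [mem_lift]
  constructor
  · rintro ⟨a, ha, he⟩
    obtain ⟨⟨f, hf⟩, -, rfl⟩ := Finset.mem_image.1 ha
    obtain ⟨Z, h1, h2, h3⟩ := hY f hf
    exact h1 (t.fib_subset_of_even h2 (fun e he => ⟨_, hg e (h1 he)⟩) (hg f hf) h3 he)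
  · intro he
    exact ⟨g e he, Finset.mem_image.2 ⟨⟨e, he⟩, Finset.mem_attach _ _, rfl⟩, hg e he⟩

lemma exists_lift_eq_of_even {Y : Finset E'} (hY : IsEven ends' Y) {X : Finset E}
    (hYX : Y ⊆ t.lift X) : ∃ Z, t.lift Z = Y :=
  t.exists_lift_eq (fun _ he => ⟨Y, subset_rfl, hY, he⟩) fun e he => by
    obtain ⟨a, -, ha⟩ := t.mem_lift.1 (hYX he)
    exact ⟨a, ha⟩

lemma nu_lift (X : Finset E) : nu ends' (t.lift X) = nu ends X := by
  classical
  unfold nu
  symm
  apply Finset.card_nbij t.lift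
  · intro Y hY
    simp only [Finset.coe_filter, Finset.mem_powerset, Set.mem_ofPred_eq] at hY ⊢
    exact ⟨t.lift_subset_lift.2 hY.1, t.isEven_lift.2 hY.2⟩
  · exact t.lift_injective.injOn
  · intro Y hY
    simp only [Finset.coe_filter, Finset.mem_powerset, Set.mem_ofPred_eq] at hY
    obtain ⟨Z, rfl⟩ := t.exists_lift_eq_of_even hY.2 hY.1
    refine ⟨Z, ?_, rfl⟩
    simp only [Finset.coe_filter, Finset.mem_powerset, Set.mem_ofPred_eq]
    exact ⟨t.lift_subset_lift.1 hY.1, t.isEven_lift.1 hY.2⟩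

lemma bridgeless_lift {X : Finset E} : Bridgeless ends' (t.lift X) ↔ Bridgeless ends X := by
  constructor
  · intro h a ha
    obtain ⟨e, he⟩ := t.fib_nonempty a
    obtain ⟨Y, h1, h2, h3⟩ := h e ((t.mem_lift_of_mem_fib he).2 ha)
    obtain ⟨Z, rfl⟩ := t.exists_lift_eq_of_even h2 h1
    exact ⟨Z, t.lift_subset_lift.1 h1, t.isEven_lift.1 h2, (t.mem_lift_of_mem_fib he).1 h3⟩
  · intro h e he
    obtain ⟨a, ha, he⟩ := t.mem_lift.1 he
    obtain ⟨Z, h1, h2, h3⟩ := h a ha
    exact ⟨t.lift Z, t.lift_subset_lift.2 h1, t.isEven_lift.2 h2, (t.mem_lift_of_mem_fib he).2 h3⟩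

lemma vdisj_lift {X Y : Finset E} : VDisj ends' (t.lift X) (t.lift Y) ↔ VDisj ends X Y := by
  constructor
  · intro h v
    rw [← t.deg_lift_old, ← t.deg_lift_old]; exact h _
  · intro h w
    by_cases hw : w ∈ Set.range t.ι
    · obtain ⟨v, rfl⟩ := hw
      rw [t.deg_lift_old, t.deg_lift_old]; exact h v
    · rcases t.deg_lift_new hw with h1 | ⟨a, h1⟩
      · exact Or.inl (h1 X)
      · by_cases ha : a ∈ X
        · exact Or.inr ((h1 Y).2 (Finset.disjoint_left.1 h.disjoint ha))
        · exact Or.inl ((h1 X).2 ha)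

lemma exists_old_of_deg {X : Finset E} {w : V'} (h : 2 < deg ends' (t.lift X) w) :
    ∃ v, t.ι v = w := by
  by_contra hc
  rcases t.deg_lift_new' hc X with h1 | h1 <;> omega

lemma neck_lift {T : Finset E} {𝓑 : Set (Finset E)}
    (h : Neck ends T 𝓑) : Neck ends' (t.lift T) (t.lift '' 𝓑) where
  nonempty := h.nonempty.image _
  sub := by
    rintro _ ⟨B, hB, rfl⟩
    exact t.lift_subset_lift.2 (h.sub B hB)
  cover e he := by
    obtain ⟨a, ha, he⟩ := t.mem_lift.1 he
    obtain ⟨B, hB, haB⟩ := h.cover a ha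
    exact ⟨_, ⟨B, hB, rfl⟩, (t.mem_lift_of_mem_fib he).2 haB⟩
  bead_even := by
    rintro _ ⟨B, hB, rfl⟩
    exact t.isEven_lift.2 (h.bead_even B hB)
  bead_min := by
    rintro _ ⟨B, hB, rfl⟩ Y hY hY'
    obtain ⟨Z, rfl⟩ := t.exists_lift_eq_of_even hY' hY
    rcases h.bead_min B hB Z (t.lift_subset_lift.1 hY) (t.isEven_lift.1 hY') with rfl | rfl
    · exact Or.inl t.lift_empty
    · exact Or.inr rfl
  even := t.isEven_lift.2 h.even
  deg_le w := by
    by_contra hc
    obtain ⟨v, rfl⟩ := t.exists_old_of_deg (X := T) (w := w) (by omega)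
    rw [t.deg_lift_old] at hc
    exact hc (h.deg_le v)
  junction := by
    rintro _ ⟨B, hB, rfl⟩
    obtain ⟨w₁, w₂, hne, hj⟩ := h.junction B hB
    refine ⟨t.ι w₁, t.ι w₂, fun h => hne (t.inj h), fun w => ?_⟩
    constructor
    · rintro ⟨h1, h2⟩
      obtain ⟨v, rfl⟩ := t.exists_old_of_deg (X := T) (w := w) (by omega)
      rw [t.deg_lift_old] at h1 h2
      rcases (hj v).1 ⟨h1, h2⟩ with rfl | rfl
      · exact Or.inl rfl
      · exact Or.inr rfl
    · rintro (rfl | rfl)
      · rw [t.deg_lift_old, t.deg_lift_old]; exact (hj _).2 (Or.inl rfl)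
      · rw [t.deg_lift_old, t.deg_lift_old]; exact (hj _).2 (Or.inr rfl)
  conn 𝓐 h𝓐 hne hcl := by
    have h1 := h.conn {B | B ∈ 𝓑 ∧ t.lift B ∈ 𝓐} (fun B hB => hB.1) (by
      obtain ⟨Y, hY⟩ := hne
      obtain ⟨B, hB, rfl⟩ := h𝓐 hY
      exact ⟨B, hB, hY⟩) (by
      intro B hB B' hB' v h1 h2 h3
      refine ⟨hB', hcl _ hB.2 _ ⟨B', hB', rfl⟩ (t.ι v) ?_ ?_ ?_⟩ <;> rwa [t.deg_lift_old])
    rintro _ ⟨B, hB, rfl⟩
    exact (h1 hB).2

lemma neck_of_lift {T : Finset E} {𝓑 : Set (Finset E')}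
    (h : Neck ends' (t.lift T) 𝓑) : Neck ends T (t.lift ⁻¹' 𝓑) := by
  have hex : ∀ Y ∈ 𝓑, ∃ B, t.lift B = Y := fun Y hY =>
    t.exists_lift_eq_of_even (h.bead_even Y hY) (h.sub Y hY)
  refine ⟨?_, ?_, ?_, ?_, ?_, t.isEven_lift.1 h.even, ?_, ?_, ?_⟩
  · obtain ⟨Y, hY⟩ := h.nonempty
    obtain ⟨B, rfl⟩ := hex Y hY
    exact ⟨B, hY⟩
  · exact fun B hB => t.lift_subset_lift.1 (h.sub _ hB)
  · intro a ha
    obtain ⟨e, he⟩ := t.fib_nonempty a
    obtain ⟨Y, hY, heY⟩ := h.cover e ((t.mem_lift_of_mem_fib he).2 ha)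
    obtain ⟨B, rfl⟩ := hex Y hY
    exact ⟨B, hY, (t.mem_lift_of_mem_fib he).1 heY⟩
  · exact fun B hB => t.isEven_lift.1 (h.bead_even _ hB)
  · intro B hB X hX hX'
    rcases h.bead_min _ hB (t.lift X) (t.lift_subset_lift.2 hX) (t.isEven_lift.2 hX') with h1 | h1
    · left
      apply t.lift_injective
      rw [h1, t.lift_empty]
    · exact Or.inr (t.lift_injective h1)
  · intro v
    rw [← t.deg_lift_old]; exact h.deg_le _
  · intro B hB
    obtain ⟨w₁, w₂, hne, hj⟩ := h.junction _ hB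
    obtain ⟨v₁, rfl⟩ := t.exists_old_of_deg (X := T) (w := w₁)
      (by rw [((hj w₁).2 (Or.inl rfl)).2]; omega)
    obtain ⟨v₂, rfl⟩ := t.exists_old_of_deg (X := T) (w := w₂)
      (by rw [((hj w₂).2 (Or.inr rfl)).2]; omega)
    refine ⟨v₁, v₂, fun h => hne (by rw [h]), fun v => ?_⟩
    rw [← t.deg_lift_old, ← t.deg_lift_old, hj, t.inj.eq_iff, t.inj.eq_iff]
  · intro 𝓐 h𝓐 hne hcl
    have h1 := h.conn (t.lift '' 𝓐) (by
      rintro _ ⟨B, hB, rfl⟩
      exact h𝓐 hB) (hne.image _) (by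
      rintro _ ⟨B, hB, rfl⟩ Y hY w h1 h2 h3
      obtain ⟨B', rfl⟩ := hex Y hY
      obtain ⟨v, rfl⟩ := t.exists_old_of_deg (X := T) (w := w) (by omega)
      rw [t.deg_lift_old] at h1 h2 h3
      exact ⟨B', hcl B hB B' hY v h1 h2 h3, rfl⟩)
    intro B hB
    obtain ⟨B', hB', h2⟩ := h1 hB
    rwa [← t.lift_injective h2]

lemma isNeck_lift {T : Finset E} : IsNeck ends' (t.lift T) ↔ IsNeck ends T :=
  ⟨fun ⟨_, h⟩ => ⟨_, t.neck_of_lift h⟩, fun ⟨_, h⟩ => ⟨_, t.neck_lift h⟩⟩

lemma good_liftSet {σ : ℕ → ℕ} {D : Set E} : Good ends' σ (t.liftSet D) ↔ Good ends σ D := by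
  classical
  constructor
  · rintro ⟨N, F, T, h⟩
    have hcov : ∀ e ∈ t.liftSet D, ∃ a, e ∈ t.fib a := fun e ⟨a, _, ha⟩ => ⟨a, ha⟩
    obtain ⟨F₀, rfl⟩ := t.exists_lift_eq h.bridgeless fun e he => hcov e ((h.mem e).2 (Or.inl he))
    have h1 : ∀ n, ∃ X, N ≤ n → t.lift X = T n := by
      intro n
      by_cases hn : N ≤ n
      · obtain ⟨X, hX⟩ := t.exists_lift_eq (h.neck n hn).bridgeless
          fun e he => hcov e ((h.mem e).2 (Or.inr ⟨n, hn, he⟩))
        exact ⟨X, fun _ => hX⟩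
      · exact ⟨∅, fun h => absurd h hn⟩
    choose T₀ hT₀ using h1
    refine ⟨N, F₀, T₀, t.bridgeless_lift.1 h.bridgeless, ?_, ?_, ?_, ?_, ?_, ?_⟩
    · rw [← t.nu_lift, h.nu_eq]
    · intro n hn
      rw [← t.isNeck_lift, hT₀ n hn]; exact h.neck n hn
    · intro n hn
      rw [← t.nu_lift, hT₀ n hn]; exact h.nu_neck n hn
    · intro n hn
      rw [← t.vdisj_lift, hT₀ n hn]; exact h.disj n hn
    · intro m n hm hn hmn
      rw [← t.vdisj_lift, hT₀ n hn, hT₀ m hm]; exact h.disj' m n hm hn hmn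
    · intro a
      obtain ⟨e, he⟩ := t.fib_nonempty a
      rw [← t.mem_liftSet_of_mem_fib he, h.mem, t.mem_lift_of_mem_fib he]
      apply or_congr_right
      apply exists_congr
      intro n
      apply and_congr_right
      intro hn
      rw [← hT₀ n hn, t.mem_lift_of_mem_fib he]
  · rintro ⟨N, F, T, h⟩
    refine ⟨N, t.lift F, fun n => t.lift (T n), t.bridgeless_lift.2 h.bridgeless, ?_, ?_, ?_, ?_,
      ?_, ?_⟩
    · rw [t.nu_lift, h.nu_eq]
    · exact fun n hn => t.isNeck_lift.2 (h.neck n hn)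
    · intro n hn
      rw [t.nu_lift]; exact h.nu_neck n hn
    · exact fun n hn => t.vdisj_lift.2 (h.disj n hn)
    · exact fun m n hm hn hmn => t.vdisj_lift.2 (h.disj' m n hm hn hmn)
    · intro e
      constructor
      · rintro ⟨a, ha, he⟩
        rcases (h.mem a).1 ha with h1 | ⟨n, hn, h1⟩
        · exact Or.inl ((t.mem_lift_of_mem_fib he).2 h1)
        · exact Or.inr ⟨n, hn, (t.mem_lift_of_mem_fib he).2 h1⟩
      · rintro (h1 | ⟨n, hn, h1⟩)
        · obtain ⟨a, ha, he⟩ := t.mem_lift.1 h1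
          exact ⟨a, (h.mem a).2 (Or.inl ha), he⟩
        · obtain ⟨a, ha, he⟩ := t.mem_lift.1 h1
          exact ⟨a, (h.mem a).2 (Or.inr ⟨n, hn, ha⟩), he⟩

/-- the transfer is onto -/
structure Full : Prop where
  edge : ∀ e, ∃ a, e ∈ t.fib a
  vert : ∀ w, w ∉ Set.range t.ι → ∃ e, w ∈ ends' e

end Transfer

/-- no isolated vertex -/
def NoIso (ends : E → Sym2 V) : Prop := ∀ v, ∃ e, v ∈ ends e

/-- some vertex has degree at least `d` -/
def HasDeg (ends : E → Sym2 V) (d : ℕ) : Prop := ∃ v X, d ≤ deg ends X v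

/-- the two graphs agree on all invariants used -/
structure Same (ends : E → Sym2 V) (ends' : E' → Sym2 V') : Prop where
  good : ∀ σ, Good ends σ Set.univ ↔ Good ends' σ Set.univ
  noIso : NoIso ends ↔ NoIso ends'
  hasDeg : ∀ d, 3 ≤ d → (HasDeg ends d ↔ HasDeg ends' d)

lemma Same.refl (ends : E → Sym2 V) : Same ends ends :=
  ⟨fun _ => Iff.rfl, Iff.rfl, fun _ _ => Iff.rfl⟩

lemma Same.symm {ends : E → Sym2 V} {ends' : E' → Sym2 V'} (h : Same ends ends') :
    Same ends' ends :=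
  ⟨fun σ => (h.good σ).symm, h.noIso.symm, fun d hd => (h.hasDeg d hd).symm⟩

lemma Same.trans {V'' E'' : Type*} {ends : E → Sym2 V} {ends' : E' → Sym2 V'}
    {ends'' : E'' → Sym2 V''} (h : Same ends ends') (h' : Same ends' ends'') : Same ends ends'' :=
  ⟨fun σ => (h.good σ).trans (h'.good σ), h.noIso.trans h'.noIso,
    fun d hd => (h.hasDeg d hd).trans (h'.hasDeg d hd)⟩

lemma Transfer.same {ends : E → Sym2 V} {ends' : E' → Sym2 V'} (t : Transfer ends ends')
    (ht : t.Full) : Same ends ends' := by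
  classical
  refine ⟨fun σ => ?_, ?_, fun d hd => ?_⟩
  · rw [← t.good_liftSet]
    have : t.liftSet Set.univ = Set.univ := by
      ext e
      simp only [Set.mem_univ, iff_true]
      obtain ⟨a, ha⟩ := ht.edge e
      exact ⟨a, trivial, ha⟩
    rw [this]
  · constructor
    · intro h w
      by_cases hw : w ∈ Set.range t.ι
      · obtain ⟨v, rfl⟩ := hw
        obtain ⟨a, ha⟩ := h v
        have h1 : deg ends' (t.fib a) (t.ι v) ≠ 0 := by
          rw [t.deg_old, inc_ne_zero_iff]; exact ha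
        obtain ⟨e, -, he⟩ := deg_ne_zero_iff.1 h1
        exact ⟨e, he⟩
      · exact ht.vert w hw
    · intro h v
      obtain ⟨e, he⟩ := h (t.ι v)
      obtain ⟨a, ha⟩ := ht.edge e
      have h1 : deg ends' (t.fib a) (t.ι v) ≠ 0 := deg_ne_zero_iff.2 ⟨e, ha, he⟩
      rw [t.deg_old, inc_ne_zero_iff] at h1
      exact ⟨a, h1⟩
  · constructor
    · rintro ⟨v, X, h⟩
      exact ⟨t.ι v, t.lift X, by rwa [t.deg_lift_old]⟩
    · rintro ⟨w, Y, h⟩
      choose g hg using ht.edge
      have h1 : Y ⊆ t.lift (Y.image g) := fun e he =>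
        (t.mem_lift_of_mem_fib (hg e)).2 (Finset.mem_image_of_mem g he)
      have h2 := deg_mono (ends := ends') h1 w
      obtain ⟨v, rfl⟩ := t.exists_old_of_deg (X := Y.image g) (w := w) (by omega)
      rw [t.deg_lift_old] at h2
      exact ⟨v, _, h.trans h2⟩

/-- an embedding as a transfer -/
noncomputable def embTransfer {ends : E → Sym2 V} {ends' : E' → Sym2 V'} (φ : V → V') (ψ : E → E')
    (hφ : Function.Injective φ) (hψ : Function.Injective ψ)
    (h : ∀ e, ends' (ψ e) = (ends e).map φ) : Transfer ends ends' where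
  fib a := {ψ a}
  ι := φ
  inj := hφ
  fib_nonempty a := Finset.singleton_nonempty _
  fib_disj a b hab := by simpa using fun h => hab (hψ h)
  deg_old a v := by rw [deg_singleton, h, inc_map hφ]
  deg_new w hw := Or.inl fun a => by rw [deg_singleton, h, inc_map_of_notMem _ hw]
  sat a X hX _ := Finset.subset_singleton_iff.1 hX

lemma good_image {ends : E → Sym2 V} {ends' : E' → Sym2 V'} (φ : V → V') (ψ : E → E')
    (hφ : Function.Injective φ) (hψ : Function.Injective ψ)
    (h : ∀ e, ends' (ψ e) = (ends e).map φ) {σ : ℕ → ℕ} {D : Set E} :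
    Good ends' σ (ψ '' D) ↔ Good ends σ D := by
  rw [← (embTransfer φ ψ hφ hψ h).good_liftSet]
  have : (embTransfer φ ψ hφ hψ h).liftSet D = ψ '' D := by
    ext e
    simp [Transfer.liftSet, embTransfer, eq_comm]
  rw [this]

lemma same_of_equiv {ends : E → Sym2 V} {ends' : E' → Sym2 V'} (φ : V ≃ V') (ψ : E ≃ E')
    (h : ∀ e, ends' (ψ e) = (ends e).map φ) : Same ends ends' :=
  (embTransfer φ ψ φ.injective ψ.injective h).same
    ⟨fun e => ⟨ψ.symm e, by simp [embTransfer]⟩, fun w hw => absurd (φ.surjective w) hw⟩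

end Pool.Agent.MP_221c76_co

end

section

open Finset

universe u

namespace Pool.Agent.MP_221c76_co

namespace MultiGraph

lemma Iso.same {G H : MultiGraph.{u}} (h : G.Iso H) : Same G.ends H.ends := by
  obtain ⟨φ, ψ, h⟩ := h
  exact same_of_equiv φ ψ h

section one
variable (G : MultiGraph.{u}) (e : G.E) (a b : G.V)

open Classical in
noncomputable def fibOne (f : G.E) : Finset ({f : G.E // f ≠ e} ⊕ Bool) :=
  if h : f = e then {.inr false, .inr true} else {.inl ⟨f, h⟩}

lemma fibOne_self : G.fibOne e e = Finset.cons (.inr false) {.inr true} (by simp) := by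
  ext x; simp [fibOne]

lemma fibOne_ne {f : G.E} (h : f ≠ e) : G.fibOne e f = {.inl ⟨f, h⟩} := by
  simp [fibOne, h]

lemma ends_inl (f : {f : G.E // f ≠ e}) :
    (G.subdivideEdge e a b).ends (.inl f) = (G.ends f.1).map some := rfl
lemma ends_false : (G.subdivideEdge e a b).ends (.inr false) = s(some a, none) := rfl
lemma ends_true : (G.subdivideEdge e a b).ends (.inr true) = s(none, some b) := rfl

lemma eq_none_of_notMem {α : Type*} {w : Option α} (hw : w ∉ Set.range (some : α → Option α)) :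
    w = none := by
  cases w with
  | none => rfl
  | some v => exact absurd ⟨v, rfl⟩ hw

lemma deg_fibOne_self (w : Option G.V) :
    deg (G.subdivideEdge e a b).ends (G.fibOne e e) w =
      inc s(some a, none) w + inc s(none, some b) w := by
  rw [fibOne_self]
  unfold deg
  erw [Finset.sum_cons, Finset.sum_singleton]
  rfl

noncomputable def transferOne (he : G.ends e = s(a, b)) :
    Transfer G.ends (G.subdivideEdge e a b).ends where
  fib := G.fibOne e
  ι := some
  inj := Option.some_injective _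
  fib_nonempty f := by
    by_cases h : f = e
    · subst h; rw [fibOne_self]; exact Finset.cons_nonempty _
    · rw [fibOne_ne _ _ h]; exact Finset.singleton_nonempty _
  fib_disj f g hfg := by
    by_cases h : f = e <;> by_cases h' : g = e
    · exact absurd (h.trans h'.symm) hfg
    · subst h; rw [fibOne_self, fibOne_ne _ _ h']
      erw [Finset.disjoint_singleton_right]; simp
    · subst h'; rw [fibOne_self, fibOne_ne _ _ h]
      erw [Finset.disjoint_singleton_left]; simp
    · rw [fibOne_ne _ _ h, fibOne_ne _ _ h']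
      erw [Finset.disjoint_singleton]; simpa using hfg
  deg_old f v := by
    by_cases h : f = e
    · subst h
      erw [deg_fibOne_self]
      rw [he, inc_mk, inc_mk, inc_mk]
      by_cases h1 : a = v <;> by_cases h2 : b = v <;> simp [h1, h2]
    · rw [fibOne_ne _ _ h]
      erw [deg_singleton]
      rw [ends_inl]
      exact inc_map (Option.some_injective _) _ _
  deg_new w hw := by
    right
    obtain rfl := eq_none_of_notMem hw
    refine ⟨e, ?_, fun f h => ?_⟩
    · erw [deg_fibOne_self]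
      simp [inc_mk]
    · rw [fibOne_ne _ _ h]
      erw [deg_singleton]
      rw [ends_inl]
      exact inc_map_of_notMem _ hw
  sat f X hX hev := by
    classical
    by_cases h : f = e
    · subst h
      have h1 := hev none (by rintro ⟨v, hv⟩; cases hv)
      rw [fibOne_self] at hX ⊢
      by_cases h2 : (Sum.inr false : {g : G.E // g ≠ f} ⊕ Bool) ∈ X <;>
        by_cases h3 : (Sum.inr true : {g : G.E // g ≠ f} ⊕ Bool) ∈ X
      · right
        apply Finset.Subset.antisymm hX
        intro x hx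
        erw [Finset.mem_cons, Finset.mem_singleton] at hx
        rcases hx with rfl | rfl <;> assumption
      · exfalso
        have : X = {Sum.inr false} := by
          ext x
          constructor
          · intro hx
            have h4 := hX hx
            erw [Finset.mem_cons, Finset.mem_singleton] at h4
            rcases h4 with rfl | rfl
            · exact Finset.mem_singleton_self _
            · exact absurd hx h3
          · intro hx
            rw [Finset.mem_singleton.1 hx]; exact h2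
        rw [this] at h1
        erw [deg_singleton] at h1
        rw [ends_false] at h1
        erw [inc_mk] at h1
        simp at h1
      · exfalso
        have : X = {Sum.inr true} := by
          ext x
          constructor
          · intro hx
            have h4 := hX hx
            erw [Finset.mem_cons, Finset.mem_singleton] at h4
            rcases h4 with rfl | rfl
            · exact absurd hx h2
            · exact Finset.mem_singleton_self _
          · intro hx
            rw [Finset.mem_singleton.1 hx]; exact h3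
        rw [this] at h1
        erw [deg_singleton] at h1
        rw [ends_true] at h1
        erw [inc_mk] at h1
        simp at h1
      · left
        apply Finset.eq_empty_of_forall_notMem
        intro x hx
        have h4 := hX hx
        erw [Finset.mem_cons, Finset.mem_singleton] at h4
        rcases h4 with rfl | rfl
        · exact h2 hx
        · exact h3 hx
    · rw [fibOne_ne _ _ h] at hX ⊢
      exact Finset.subset_singleton_iff.1 hX

lemma same_subdivideEdge (he : G.ends e = s(a, b)) : Same G.ends (G.subdivideEdge e a b).ends := by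
  apply (G.transferOne e a b he).same
  constructor
  · rintro (f | x)
    · refine ⟨f.1, ?_⟩
      show _ ∈ G.fibOne e f.1
      rw [fibOne_ne _ _ f.2]
      exact Finset.mem_singleton_self _
    · refine ⟨e, ?_⟩
      show _ ∈ G.fibOne e e
      rw [fibOne_self]
      cases x <;> simp
  · intro w hw
    obtain rfl := eq_none_of_notMem hw
    exact ⟨.inr false, by rw [ends_false]; exact Sym2.mem_mk_right _ _⟩

end one

lemma SubdivStep.same {G H : MultiGraph.{u}} (h : G.SubdivStep H) : Same G.ends H.ends := by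
  obtain ⟨e, a, b, he, h⟩ := h
  exact (G.same_subdivideEdge e a b he).trans h.same

lemma FinSubdivision.same {G H : MultiGraph.{u}} (h : G.FinSubdivision H) : Same G.ends H.ends := by
  obtain ⟨K, h1, h2⟩ := h
  refine h1.same.trans ?_
  clear h1
  induction h2 with
  | refl => exact Same.refl _
  | tail _ h ih => exact ih.trans h.same

lemma Homeomorphic.same {G H : MultiGraph.{u}} (h : G.Homeomorphic H) : Same G.ends H.ends := by
  obtain ⟨K, h1, h2⟩ := h
  exact h1.same.symm.trans h2.same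

section all
variable (G : MultiGraph.{u}) (src tgt : G.E → G.V) (n : G.E → ℕ)

def fibAll (a : G.E) : Finset (Σ e : G.E, Fin (n e + 1)) :=
  (Finset.univ : Finset (Fin (n a + 1))).map ⟨Sigma.mk a, sigma_mk_injective⟩

lemma mem_fibAll {a : G.E} {p : Σ e : G.E, Fin (n e + 1)} : p ∈ G.fibAll n a ↔ p.1 = a := by
  obtain ⟨e, i⟩ := p
  simp only [fibAll, Finset.mem_map, Finset.mem_univ, Function.Embedding.coeFn_mk, true_and]
  constructor
  · rintro ⟨j, hj⟩
    exact (congrArg Sigma.fst hj).symm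
  · rintro rfl
    exact ⟨i, rfl⟩

def endsAll (p : Σ e : G.E, Fin (n e + 1)) : Sym2 (G.V ⊕ (Σ e : G.E, Fin (n e))) :=
  s(G.pathVertex src tgt n p.1 p.2, G.pathVertex src tgt n p.1 (p.2 + 1))

lemma deg_fibAll (a : G.E) (w : G.V ⊕ (Σ e : G.E, Fin (n e))) :
    deg (G.endsAll src tgt n) (G.fibAll n a) w =
      ∑ i : Fin (n a + 1), inc (G.endsAll src tgt n ⟨a, i⟩) w := by
  unfold deg fibAll
  rw [Finset.sum_map]
  rfl

lemma pathVertex_zero (a : G.E) : G.pathVertex src tgt n a 0 = .inl (src a) := rfl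

lemma pathVertex_succ_lt (a : G.E) {i : ℕ} (h : i < n a) :
    G.pathVertex src tgt n a (i + 1) = .inr ⟨a, ⟨i, h⟩⟩ := by
  simp [pathVertex, h]

lemma pathVertex_last (a : G.E) : G.pathVertex src tgt n a (n a + 1) = .inl (tgt a) := by
  simp [pathVertex]

lemma pathVertex_eq_inr {a b : G.E} {i : ℕ} {j : Fin (n b)} :
    G.pathVertex src tgt n a i = .inr ⟨b, j⟩ ↔ a = b ∧ i = j + 1 := by
  cases i with
  | zero => simp [pathVertex]
  | succ i =>
    by_cases h : i < n a
    · rw [pathVertex_succ_lt _ _ _ _ _ h]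
      constructor
      · intro h1
        have h2 := Sum.inr.inj h1
        have h3 : a = b := congrArg Sigma.fst h2
        subst h3
        have h4 := eq_of_heq (Sigma.mk.inj h2).2
        rw [← h4]
        exact ⟨rfl, rfl⟩
      · rintro ⟨rfl, h1⟩
        have : i = j := by omega
        subst this
        rfl
    · simp only [pathVertex, h, dite_false, reduceCtorEq, false_iff, not_and]
      rintro rfl h1
      have := j.2
      omega

lemma exists_inr_of_notMem {α β : Type*} {w : α ⊕ β} (hw : w ∉ Set.range (Sum.inl : α → α ⊕ β)) :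
    ∃ b, w = .inr b := by
  cases w with
  | inl v => exact absurd ⟨v, rfl⟩ hw
  | inr b => exact ⟨b, rfl⟩

open Classical in
lemma inc_all (a b : G.E) (i : Fin (n a + 1)) (j : Fin (n b)) :
    inc (G.endsAll src tgt n ⟨a, i⟩) (Sum.inr ⟨b, j⟩) =
      if a = b ∧ ((i : ℕ) = j + 1 ∨ (i : ℕ) = j) then 1 else 0 := by
  unfold endsAll
  rw [inc_mk]
  have h1 := G.pathVertex_eq_inr src tgt n (a := a) (b := b) (i := i) (j := j)
  have h2 := G.pathVertex_eq_inr src tgt n (a := a) (b := b) (i := i + 1) (j := j)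
  dsimp only
  by_cases h3 : G.pathVertex src tgt n a i = Sum.inr ⟨b, j⟩ <;>
    by_cases h4 : G.pathVertex src tgt n a (i + 1) = Sum.inr ⟨b, j⟩
  · rw [h1] at h3; rw [h2] at h4; omega
  · rw [if_pos h3, if_neg h4, if_pos ⟨(h1.1 h3).1, Or.inl (h1.1 h3).2⟩]
  · rw [if_neg h3, if_pos h4, if_pos ⟨(h2.1 h4).1, Or.inr (by have := (h2.1 h4).2; omega)⟩]
  · rw [if_neg h3, if_neg h4, if_neg]
    rintro ⟨h5, h6 | h6⟩
    · exact h3 (h1.2 ⟨h5, h6⟩)
    · exact h4 (h2.2 ⟨h5, by omega⟩)

open Classical in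
lemma deg_fibAll_old (a : G.E) (v : G.V) :
    deg (G.endsAll src tgt n) (G.fibAll n a) (Sum.inl v) = inc s(src a, tgt a) v := by
  rw [deg_fibAll]
  simp only [endsAll, inc_mk]
  rw [Finset.sum_add_distrib, Fin.sum_univ_succ, Fin.sum_univ_castSucc]
  have h1 : ∀ i : Fin (n a), G.pathVertex src tgt n a (i + 1) ≠ Sum.inl v := by
    intro i
    rw [pathVertex_succ_lt _ _ _ _ _ i.2]
    simp
  simp [h1, pathVertex_zero, pathVertex_last]

open Classical in
lemma deg_sub_fibAll (a : G.E) (X : Finset (Σ e : G.E, Fin (n e + 1))) (hX : X ⊆ G.fibAll n a)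
    (j : Fin (n a)) : deg (G.endsAll src tgt n) X (Sum.inr ⟨a, j⟩) =
      (if (⟨a, j.castSucc⟩ : Σ e : G.E, Fin (n e + 1)) ∈ X then 1 else 0) +
      (if (⟨a, j.succ⟩ : Σ e : G.E, Fin (n e + 1)) ∈ X then 1 else 0) := by
  unfold deg
  rw [← Finset.sum_ite_eq' X _ (fun _ => 1), ← Finset.sum_ite_eq' X _ (fun _ => 1),
    ← Finset.sum_add_distrib]
  apply Finset.sum_congr rfl
  rintro ⟨b, i⟩ hp
  obtain rfl : b = a := (G.mem_fibAll n).1 (hX hp)
  rw [inc_all]
  simp only [true_and, Sigma.mk.injEq, heq_eq_eq, Fin.ext_iff, Fin.val_castSucc, Fin.val_succ]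
  split_ifs <;> omega

noncomputable def transferAll (h : ∀ e, G.ends e = s(src e, tgt e)) :
    Transfer G.ends (G.endsAll src tgt n) where
  fib := G.fibAll n
  ι := Sum.inl
  inj := Sum.inl_injective
  fib_nonempty a := ⟨⟨a, 0⟩, (G.mem_fibAll n).2 rfl⟩
  fib_disj a b hab := by
    rw [Finset.disjoint_left]
    intro p h1 h2
    rw [mem_fibAll] at h1 h2
    exact hab (h1.symm.trans h2)
  deg_old a v := by rw [deg_fibAll_old, h]
  deg_new w hw := by
    obtain ⟨⟨a, j⟩, rfl⟩ := exists_inr_of_notMem hw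
    right
    refine ⟨a, ?_, fun b hb => ?_⟩
    · rw [deg_sub_fibAll _ _ _ _ _ _ subset_rfl]
      simp [mem_fibAll]
    · rw [deg_fibAll]
      apply Finset.sum_eq_zero
      intro i _
      rw [inc_all]
      simp [hb]
  sat a X hX hev := by
    have h1 : ∀ j : Fin (n a), (⟨a, j.castSucc⟩ : Σ e : G.E, Fin (n e + 1)) ∈ X ↔
        (⟨a, j.succ⟩ : Σ e : G.E, Fin (n e + 1)) ∈ X := by
      intro j
      have h2 := hev (Sum.inr ⟨a, j⟩) (by rintro ⟨v, hv⟩; cases hv)
      rw [deg_sub_fibAll _ _ _ _ _ _ hX] at h2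
      by_cases h3 : (⟨a, j.castSucc⟩ : Σ e : G.E, Fin (n e + 1)) ∈ X <;>
        by_cases h4 : (⟨a, j.succ⟩ : Σ e : G.E, Fin (n e + 1)) ∈ X <;> simp_all
    have h2 : ∀ i : Fin (n a + 1), (⟨a, i⟩ : Σ e : G.E, Fin (n e + 1)) ∈ X ↔
        (⟨a, 0⟩ : Σ e : G.E, Fin (n e + 1)) ∈ X := by
      intro i
      induction i using Fin.induction with
      | zero => rfl
      | succ j ih => rw [← h1, ih]
    by_cases h0 : (⟨a, 0⟩ : Σ e : G.E, Fin (n e + 1)) ∈ X
    · right
      apply Finset.Subset.antisymm hX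
      rintro ⟨b, i⟩ hp
      obtain rfl : b = a := (G.mem_fibAll n).1 hp
      exact (h2 i).2 h0
    · left
      apply Finset.eq_empty_of_forall_notMem
      rintro ⟨b, i⟩ hp
      obtain rfl : b = a := (G.mem_fibAll n).1 (hX hp)
      exact h0 ((h2 i).1 hp)

lemma same_subdivideAll (h : ∀ e, G.ends e = s(src e, tgt e)) :
    Same G.ends (G.subdivideAll src tgt n).ends := by
  apply (G.transferAll src tgt n h).same
  constructor
  · exact fun p => ⟨p.1, (G.mem_fibAll n).2 rfl⟩
  · intro w hw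
    obtain ⟨⟨a, j⟩, rfl⟩ := exists_inr_of_notMem hw
    refine ⟨⟨a, j.castSucc⟩, ?_⟩
    rw [← inc_ne_zero_iff, inc_all]
    simp

end all

lemma Subdivision.same {G H : MultiGraph.{u}} (h : G.Subdivision H) : Same G.ends H.ends := by
  obtain ⟨src, tgt, n, h1, h2⟩ := h
  exact (G.same_subdivideAll src tgt n h1).trans h2.same

lemma WidelyHomeomorphic.same {G H : MultiGraph.{u}} (h : G.WidelyHomeomorphic H) :
    Same G.ends H.ends := by
  obtain ⟨K, h1, h2⟩ := h
  exact h1.same.symm.trans h2.same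

/-- the subgraph spanned by an edge set -/
def span (G : MultiGraph.{u}) (C : Set G.E) : G.Subgraph where
  verts := {v | ∃ e ∈ C, v ∈ G.ends e}
  edges := C
  ends_mem e he _ hv := ⟨e, he, hv⟩

lemma Subgraph.good_iff {G : MultiGraph.{u}} (S : G.Subgraph) {σ : ℕ → ℕ} :
    Good S.toGraph.ends σ Set.univ ↔ Good G.ends σ S.edges := by
  have h := good_image (ends := S.toGraph.ends) (ends' := G.ends) Subtype.val Subtype.val
    Subtype.val_injective Subtype.val_injective
    (fun e => (Sym2.attachWith_map_subtypeVal _).symm) (σ := σ) (D := Set.univ)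
  rw [← h]
  have : (Subtype.val '' (Set.univ : Set S.edges)) = S.edges := by simp
  erw [this]

lemma span_noIso (G : MultiGraph.{u}) (C : Set G.E) : NoIso (G.span C).toGraph.ends := by
  rintro ⟨v, e, he, hv⟩
  refine ⟨⟨e, he⟩, ?_⟩
  have h1 : ((G.span C).toGraph.ends ⟨e, he⟩).map Subtype.val = G.ends e :=
    Sym2.attachWith_map_subtypeVal _
  rw [← h1, Sym2.mem_map] at hv
  obtain ⟨a, ha, rfl⟩ := hv
  exact ha

end MultiGraph

end Pool.Agent.MP_221c76_co

end

section

open Finset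

universe u

namespace Pool.Agent.MP_221c76_co

section cyc
variable (k : ℕ)

/-- the doubled cycle of length `k + 2` -/
def endsCyc (p : ZMod (k + 2) × Bool) : Sym2 (ZMod (k + 2)) := s(p.1, p.1 + 1)

def bead (i : ZMod (k + 2)) : Finset (ZMod (k + 2) × Bool) := {(i, false), (i, true)}

lemma succ_ne (i : ZMod (k + 2)) : i + 1 ≠ i := by
  have : Fact (1 < k + 2) := ⟨by omega⟩
  simp

lemma deg_bead (i v : ZMod (k + 2)) : deg (endsCyc k) (bead k i) v = 2 * inc s(i, i + 1) v := by
  unfold deg bead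
  rw [Finset.sum_pair (by simp)]
  simp only [endsCyc]
  ring

lemma deg_univ (v : ZMod (k + 2)) : deg (endsCyc k) Finset.univ v = 4 := by
  classical
  unfold deg
  rw [Fintype.sum_prod_type]
  simp only [endsCyc, inc_mk, Fintype.sum_bool]
  have h1 : ∀ x : ZMod (k + 2), x + 1 = v ↔ x = v - 1 := fun x => eq_sub_iff_add_eq.symm
  simp only [Finset.sum_add_distrib]
  have h2 : (∑ x : ZMod (k + 2), if x = v then 1 else 0) = 1 := by simp
  have h3 : (∑ x : ZMod (k + 2), if x + 1 = v then 1 else 0) = 1 := by simp [h1]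
  have h4 : ∀ a b c d : ℕ, a = 1 → b = 1 → c = 1 → d = 1 → a + b + (c + d) = 4 := by omega
  apply h4
  · convert h2
  · convert h3
  · convert h2
  · convert h3

lemma neck_cyc : Neck (endsCyc k) Finset.univ (Set.range (bead k)) where
  nonempty := Set.range_nonempty _
  sub _ _ := Finset.subset_univ _
  cover := by
    rintro ⟨i, b⟩ -
    exact ⟨_, ⟨i, rfl⟩, by cases b <;> simp [bead]⟩
  bead_even := by
    rintro _ ⟨i, rfl⟩ v
    rw [deg_bead]; exact even_two_mul _
  bead_min := by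
    rintro _ ⟨i, rfl⟩ X hX hev
    have h1 : ∀ b, ¬ IsEven (endsCyc k) {(i, b)} := by
      intro b h
      have := h i
      rw [deg_singleton] at this
      unfold endsCyc at this
      rw [inc_mk, if_pos rfl, if_neg (succ_ne k i)] at this
      exact absurd this (by decide)
    by_cases h2 : (i, false) ∈ X <;> by_cases h3 : (i, true) ∈ X
    · right
      apply Finset.Subset.antisymm hX
      intro x hx
      simp only [bead, Finset.mem_insert, Finset.mem_singleton] at hx
      rcases hx with rfl | rfl <;> assumption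
    · exfalso
      apply h1 false
      convert hev
      ext x
      rw [Finset.mem_singleton]
      constructor
      · rintro rfl; exact h2
      · intro hx
        have := hX hx
        simp only [bead, Finset.mem_insert, Finset.mem_singleton] at this
        rcases this with rfl | rfl
        · rfl
        · exact absurd hx h3
    · exfalso
      apply h1 true
      convert hev
      ext x
      rw [Finset.mem_singleton]
      constructor
      · rintro rfl; exact h3
      · intro hx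
        have := hX hx
        simp only [bead, Finset.mem_insert, Finset.mem_singleton] at this
        rcases this with rfl | rfl
        · exact absurd hx h2
        · rfl
    · left
      apply Finset.eq_empty_of_forall_notMem
      intro x hx
      have := hX hx
      simp only [bead, Finset.mem_insert, Finset.mem_singleton] at this
      rcases this with rfl | rfl
      · exact h2 hx
      · exact h3 hx
  even v := by rw [deg_univ]; decide
  deg_le v := by rw [deg_univ]
  junction := by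
    rintro _ ⟨i, rfl⟩
    refine ⟨i, i + 1, (succ_ne k i).symm, fun v => ?_⟩
    rw [deg_univ, deg_bead, ← Sym2.mem_iff, ← inc_ne_zero_iff]
    simp
  conn 𝓐 h𝓐 hne hcl := by
    obtain ⟨B, hB⟩ := hne
    obtain ⟨i, rfl⟩ := h𝓐 hB
    have h1 : ∀ m : ℕ, bead k (i + m) ∈ 𝓐 := by
      intro m
      induction m with
      | zero => simpa using hB
      | succ m ih =>
        apply hcl _ ih _ ⟨_, rfl⟩ (i + m + 1) (deg_univ _ _)
        · rw [deg_bead]
          have := (inc_ne_zero_iff s(i + m, i + m + 1) (i + m + 1)).2 (Sym2.mem_mk_right _ _)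
          omega
        · rw [deg_bead]
          have := (inc_ne_zero_iff s(i + (m + 1 : ℕ), i + (m + 1 : ℕ) + 1) (i + m + 1)).2
            (by rw [Nat.cast_succ, ← add_assoc]; exact Sym2.mem_mk_left _ _)
          omega
    rintro _ ⟨j, rfl⟩
    have := h1 (j - i).val
    simpa using this

lemma le_nu_cyc : k + 2 ≤ nu (endsCyc k) Finset.univ := by
  classical
  unfold nu
  have h1 : k + 2 = (Finset.univ : Finset (ZMod (k + 2))).card := by simp [ZMod.card]
  conv_lhs => rw [h1]
  apply Finset.card_le_card_of_injOn (bead k)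
  · intro i _
    simp only [Finset.coe_filter, Finset.mem_powerset, Set.mem_ofPred_eq]
    exact ⟨Finset.subset_univ _, (neck_cyc k).bead_even _ ⟨i, rfl⟩⟩
  · intro i _ j _ hij
    have : (i, false) ∈ bead k j := by rw [← hij]; simp [bead]
    simpa [bead] using this

end cyc

lemma exists_sigma : ∃ κ : ℕ → ℕ, Function.Injective fun n => nu (endsCyc (κ n)) Finset.univ := by
  have h1 : (Set.range fun k => nu (endsCyc k) Finset.univ).Infinite := by
    apply Set.infinite_of_forall_exists_gt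
    intro a
    exact ⟨_, ⟨a, rfl⟩, lt_of_lt_of_le (by omega) (le_nu_cyc a)⟩
  have h2 : ∀ n, ∃ k, nu (endsCyc k) Finset.univ = (h1.natEmbedding _ n : ℕ) := fun n =>
    (h1.natEmbedding _ n).2
  choose κ hκ using h2
  refine ⟨κ, fun m n hmn => ?_⟩
  simp only [hκ] at hmn
  exact (h1.natEmbedding _).injective (Subtype.ext hmn)

abbrev HV : Type u := ULift (Option (Σ k : ℕ, ZMod (k + 2)))

abbrev HE : Type u := ULift (ℕ ⊕ (Σ k : ℕ, ZMod (k + 2) × Bool))

def vtx (k : ℕ) (i : ZMod (k + 2)) : HV.{u} := ⟨some ⟨k, i⟩⟩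

def edg (k : ℕ) (p : ZMod (k + 2) × Bool) : HE.{u} := ⟨.inr ⟨k, p⟩⟩

lemma vtx_inj (k : ℕ) : Function.Injective (vtx.{u} k) := by
  intro a b h
  simpa [vtx] using h

lemma edg_inj (k : ℕ) : Function.Injective (edg.{u} k) := by
  intro a b h
  simpa [edg] using h

def hostEnds : HE.{u} → Sym2 HV.{u}
  | ⟨.inl _⟩ => s(⟨none⟩, ⟨none⟩)
  | ⟨.inr p⟩ => (endsCyc p.1 p.2).map (vtx p.1)

/-- the host graph: infinitely many loops at one vertex, and all doubled cycles -/
abbrev host : MultiGraph.{u} where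
  V := HV.{u}
  E := HE.{u}
  ends := hostEnds

noncomputable def cycTransfer (k : ℕ) : Transfer (endsCyc k) host.{u}.ends :=
  embTransfer (vtx k) (edg k) (vtx_inj k) (edg_inj k) (fun _ => rfl)

noncomputable def hostNeck (k : ℕ) : Finset host.{u}.E := (cycTransfer k).lift Finset.univ

lemma hostNeck_vert {k : ℕ} {e : host.{u}.E} (he : e ∈ hostNeck k) {v : host.{u}.V}
    (hv : v ∈ host.ends e) : ∃ i, v = ⟨some ⟨k, i⟩⟩ := by
  obtain ⟨a, -, ha⟩ := (cycTransfer k).mem_lift.1 he
  have ha' : e ∈ ({edg k a} : Finset HE.{u}) := ha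
  obtain rfl : e = edg k a := Finset.mem_singleton.1 ha'
  have hv' : v ∈ (endsCyc k a).map (vtx k) := hv
  obtain ⟨i, -, rfl⟩ := Sym2.mem_map.1 hv'
  exact ⟨i, rfl⟩

def loops (m : ℕ) : Finset host.{u}.E :=
  (range m).map ⟨fun j => ⟨.inl j⟩, fun _ _ h => Sum.inl.inj (congrArg ULift.down h)⟩

lemma loops_ends {m : ℕ} {e : host.{u}.E} (he : e ∈ loops m) :
    host.ends e = s(⟨none⟩, ⟨none⟩) := by
  obtain ⟨j, -, rfl⟩ := Finset.mem_map.1 he
  rfl

lemma isEven_of_subset_loops {m : ℕ} {X : Finset host.{u}.E} (hX : X ⊆ loops m) :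
    IsEven host.ends X := by
  intro v
  apply Finset.even_sum
  intro e he
  rw [loops_ends (hX he), inc_mk]
  exact Even.add_self _

lemma nu_loops (m : ℕ) : nu host.{u}.ends (loops m) = 2 ^ m := by
  classical
  unfold nu
  rw [Finset.filter_true_of_mem fun X hX => isEven_of_subset_loops (Finset.mem_powerset.1 hX)]
  simp [loops]

lemma deg_loops (m : ℕ) : deg host.{u}.ends (loops m) ⟨none⟩ = 2 * m := by
  unfold deg
  rw [Finset.sum_congr rfl (g := fun _ => 2) fun e he => by rw [loops_ends he, inc_mk]; simp]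
  simp [loops, mul_comm]

lemma exists_good {κ : ℕ → ℕ} (hκ : Function.Injective fun n => nu (endsCyc (κ n)) Finset.univ)
    (N : ℕ) : ∃ C : Set host.{u}.E, Good host.ends (fun n => nu (endsCyc (κ n)) Finset.univ) C ∧
      ∃ (X : Finset host.{u}.E) (v : host.{u}.V), (∀ e ∈ X, e ∈ C) ∧ N ≤ deg host.ends X v := by
  have h1 : ∃ m, N ≤ m ∧ ∏ n ∈ range N, nu (endsCyc (κ n)) Finset.univ = 2 ^ m := by
    induction N with
    | zero => exact ⟨0, le_rfl, by simp⟩
    | succ N ih =>
      obtain ⟨m, hm, h⟩ := ih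
      obtain ⟨j, hj⟩ := nu_eq_pow (ends := endsCyc (κ N)) Finset.univ
      have h2 := le_nu_cyc (κ N)
      refine ⟨m + j, ?_, by rw [Finset.prod_range_succ, h, hj, pow_add]⟩
      rcases Nat.eq_zero_or_pos j with rfl | h3
      · rw [hj] at h2; omega
      · omega
  obtain ⟨m, hm, h⟩ := h1
  refine ⟨{e | e ∈ loops m ∨ ∃ n, N ≤ n ∧ e ∈ hostNeck (κ n)},
    ⟨N, loops m, fun n => hostNeck (κ n), ?_, ?_, ?_, ?_, ?_, ?_, fun e => Iff.rfl⟩,
    loops m, ⟨none⟩, fun e he => Or.inl he, by rw [deg_loops]; omega⟩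
  · exact fun e he => ⟨_, subset_rfl, isEven_of_subset_loops subset_rfl, he⟩
  · rw [nu_loops, h]
  · exact fun n _ => (cycTransfer (κ n)).isNeck_lift.2 ⟨_, neck_cyc _⟩
  · exact fun n _ => (cycTransfer (κ n)).nu_lift _
  · intro n _
    rw [vdisj_iff]
    intro e he f hf v hv hv'
    obtain ⟨i, rfl⟩ := hostNeck_vert hf hv'
    rw [loops_ends he] at hv
    have := congrArg ULift.down ((Sym2.mem_iff.1 hv).elim id id)
    cases this
  · intro a b _ _ hab
    rw [vdisj_iff]
    intro e he f hf v hv hv'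
    obtain ⟨i, rfl⟩ := hostNeck_vert hf hv'
    obtain ⟨j, hj⟩ := hostNeck_vert he hv
    have h3 : κ b = κ a := congrArg Sigma.fst (Option.some.inj (congrArg ULift.down hj))
    exact hab (hκ (congrArg (fun k => nu (endsCyc k) Finset.univ) h3.symm))

section
variable {V E V' E' : Type*}

lemma hasDeg_of_emb {ends : E → Sym2 V} {ends' : E' → Sym2 V'} (φ : V → V') (ψ : E → E')
    (hφ : Function.Injective φ) (hψ : Function.Injective ψ)
    (h : ∀ e, ends' (ψ e) = (ends e).map φ) {Y : Finset E'} (hY : ∀ e ∈ Y, e ∈ Set.range ψ)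
    {w : V'} {d : ℕ} (hd : 3 ≤ d) (hw : d ≤ deg ends' Y w) : HasDeg ends d := by
  let t := embTransfer φ ψ hφ hψ h
  have h1 : Y ⊆ t.lift (Y.preimage ψ hψ.injOn) := by
    intro e he
    obtain ⟨a, rfl⟩ := hY e he
    exact t.mem_lift.2 ⟨a, Finset.mem_preimage.2 he, Finset.mem_singleton_self _⟩
  have h2 := deg_mono (ends := ends') h1 w
  obtain ⟨v, rfl⟩ := t.exists_old_of_deg (X := Y.preimage ψ hψ.injOn) (w := w) (by omega)
  rw [t.deg_lift_old] at h2
  exact ⟨v, _, hw.trans h2⟩

lemma deg_le_of_forall {ends : E → Sym2 V} {X Y : Finset E} {v : V}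
    (h : ∀ e ∈ X, v ∈ ends e → e ∈ Y) : deg ends X v ≤ deg ends Y v := by
  classical
  have h1 := deg_inter_add_sdiff (ends := ends) X Y v
  have h2 : deg ends (X \ Y) v = 0 := by
    rw [deg_eq_zero_iff]
    intro e he hv
    rw [Finset.mem_sdiff] at he
    exact he.2 (h e he.1 hv)
  have h3 := deg_mono (ends := ends) (Finset.inter_subset_right (s₁ := X) (s₂ := Y)) v
  omega

lemma inc_le_two (z : Sym2 V) (v : V) : inc z v ≤ 2 := by
  induction z using Sym2.ind with
  | _ a b => rw [inc_mk]; split_ifs <;> omega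

lemma Good.bdd {ends : E → Sym2 V} {σ : ℕ → ℕ} (h : Good ends σ Set.univ) :
    ∃ D, ∀ d, HasDeg ends d → d ≤ D := by
  obtain ⟨N, F, T, h⟩ := h
  refine ⟨2 * F.card + 4, ?_⟩
  rintro d ⟨v, X, hd⟩
  refine hd.trans ?_
  have hF : deg ends F v ≤ 2 * F.card := by
    have := Finset.sum_le_card_nsmul F (fun e => inc (ends e) v) 2 fun e _ => inc_le_two _ _
    rw [smul_eq_mul, mul_comm] at this
    exact this
  by_cases h1 : ∃ n, N ≤ n ∧ deg ends (T n) v ≠ 0
  · obtain ⟨n, hn, h1⟩ := h1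
    have h2 : deg ends X v ≤ deg ends (T n) v := by
      apply deg_le_of_forall
      intro e _ hv
      rcases (h.mem e).1 trivial with h3 | ⟨m, hm, h3⟩
      · exact absurd hv (deg_eq_zero_iff.1 ((h.disj n hn v).resolve_right h1) e h3)
      · by_cases hmn : m = n
        · exact hmn ▸ h3
        · exact absurd hv (deg_eq_zero_iff.1 ((h.disj' m n hm hn hmn v).resolve_right h1) e h3)
    have := (h.neck n hn).deg_le v
    omega
  · push Not at h1
    have h2 : deg ends X v ≤ deg ends F v := by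
      apply deg_le_of_forall
      intro e _ hv
      rcases (h.mem e).1 trivial with h3 | ⟨m, hm, h3⟩
      · exact h3
      · exact absurd hv (deg_eq_zero_iff.1 (h1 m hm) e h3)
    omega

end

/-- the family -/
def family (σ : ℕ → ℕ) : Set MultiGraph.{u} := {G | Good G.ends σ Set.univ ∧ NoIso G.ends}

lemma mem_family_of_same {σ : ℕ → ℕ} {G H : MultiGraph.{u}} (hG : G ∈ family σ)
    (h : Same G.ends H.ends) : H ∈ family σ := ⟨(h.good σ).1 hG.1, h.noIso.1 hG.2⟩

lemma span_mem_family {σ : ℕ → ℕ} {G : MultiGraph.{u}} {C : Set G.E} (h : Good G.ends σ C) :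
    (G.span C).toGraph ∈ family σ := ⟨(G.span C).good_iff.2 h, G.span_noIso C⟩

lemma iso_refl (G : MultiGraph.{u}) : G.Iso G := ⟨Equiv.refl _, Equiv.refl _, fun e => by simp⟩

lemma circuits_eq {σ : ℕ → ℕ} (Γ : MultiGraph.{u}) :
    {C : Set Γ.E | ∃ S : Γ.Subgraph, S.edges = C ∧ ∃ H ∈ family σ, S.toGraph.Iso H} =
      {C | Good Γ.ends σ C} := by
  ext C
  constructor
  · rintro ⟨S, rfl, H, hH, h⟩
    exact S.good_iff.1 ((h.same.good σ).2 hH.1)
  · intro h
    exact ⟨Γ.span C, rfl, _, span_mem_family h, iso_refl _⟩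

lemma infinite_classes {σ : ℕ → ℕ} (hex : ∀ d, 3 ≤ d → ∃ G ∈ family.{u} σ, HasDeg G.ends d)
    (r : MultiGraph.{u} → MultiGraph.{u} → Prop) (hr : ∀ G H, r G H → Same G.ends H.ends) :
    Infinite (Quot fun G H : family.{u} σ => r G.1 H.1) := by
  by_contra hfin
  rw [not_infinite_iff_finite] at hfin
  let f : (Quot fun G H : family.{u} σ => r G.1 H.1) → Set ℕ :=
    Quot.lift (fun G => {d | 3 ≤ d ∧ HasDeg G.1.ends d}) (by
      intro G H h
      ext d
      exact and_congr_right fun hd => (hr _ _ h).hasDeg d hd)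
  have h1 : ∀ q, ∃ D, ∀ d ∈ f q, d ≤ D := by
    rintro ⟨G⟩
    obtain ⟨D, hD⟩ := G.2.1.bdd
    exact ⟨D, fun d hd => hD d hd.2⟩
  choose D hD using h1
  obtain ⟨M, hM⟩ := (Set.finite_range D).bddAbove
  obtain ⟨G, hG, h⟩ := hex (M + 3) (by omega)
  have h2 := hD (Quot.mk _ ⟨G, hG⟩) (M + 3) ⟨by omega, h⟩
  have h3 := hM ⟨Quot.mk _ ⟨G, hG⟩, rfl⟩
  omega

theorem main : ∃ P : Set MultiGraph.{u}, IsMatroidalFamily P ∧
    (∀ G ∈ P, G.NoIsolatedVertex) ∧
    (∀ G ∈ P, ∀ H, G.Homeomorphic H → H ∈ P) ∧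
    Infinite (Quot fun G H : P => G.1.Homeomorphic H.1) ∧
    (∀ G ∈ P, ∀ H, G.WidelyHomeomorphic H → H ∈ P) ∧
    Infinite (Quot fun G H : P => G.1.WidelyHomeomorphic H.1) := by
  obtain ⟨κ, hκ⟩ := exists_sigma
  set σ : ℕ → ℕ := fun n => nu (endsCyc (κ n)) Finset.univ with hσ
  have hex : ∀ d, 3 ≤ d → ∃ G ∈ family.{u} σ, HasDeg G.ends d := by
    intro d hd
    obtain ⟨C, hC, X, v, hX, hv⟩ := exists_good.{u} hκ d
    refine ⟨_, span_mem_family hC, ?_⟩
    exact hasDeg_of_emb (ends := (host.span C).toGraph.ends) (ends' := host.ends) Subtype.val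
      Subtype.val Subtype.val_injective Subtype.val_injective
      (fun e => (Sym2.attachWith_map_subtypeVal _).symm) (fun e he => ⟨⟨e, hX e he⟩, rfl⟩) hd hv
  refine ⟨family σ, ⟨?_, fun Γ => ?_⟩, fun G hG => hG.2, fun G hG H h => mem_family_of_same hG h.same,
    infinite_classes hex _ fun _ _ h => h.same, fun G hG H h => mem_family_of_same hG h.same,
    infinite_classes hex _ fun _ _ h => h.same⟩
  · obtain ⟨G, hG, -⟩ := hex 3 le_rfl
    exact ⟨G, hG⟩
  · rw [circuits_eq]
    constructor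
    · intro C hC C' hC' h
      exact h.ne (Good.eq_of_subset hκ hC' hC h.subset)
    · intro C₁ h₁ C₂ h₂ hne e he
      exact Good.elim hκ h₁ h₂ hne he.1

end Pool.Agent.MP_221c76_co

end
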